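import Pool.Agent.TH594.HP.Sharp

/-!
# Integrated forms
-/

set_option autoImplicit false

namespace Pool.Agent.TH594.HP

open MeasureTheory
open Pool.Agent.W666.GB (AlgCurv gbc scal roundGB CurvField)
open Pool.Agent.W669.HD (addT unitT negT OpNonneg)

variable {m : ℕ} {M : Type} [MeasurableSpace M]

theorem pos_of (μ : Measure M) (g : M → ℝ) (h0 : ∀ p, 0 ≤ g p) (hi : Integrable g μ) (s : Set M)
    (hs : ∀ p ∈ s, 0 < g p) (hμ : μ s ≠ 0) : 0 < ∫ p, g p ∂μ := by
  rw [integral_pos_iff_support_of_nonneg h0 hi]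
  refine lt_of_lt_of_le (pos_iff_ne_zero.2 hμ) (measure_mono ?_)
  intro p hp
  exact (hs p hp).ne'

/-- the sign of the integral -/
theorem field_sign (μ : Measure M) (K : CurvField m M) (c : M → ℝ)
    (h : ∀ p, 0 ≤ c p ∧ OpNonneg (addT (K.R p) fun x y z w => c p * unitT x y z w) ∧
      scal (K.e p) (K.R p) ≤ -(c p * ((2 * m - 1) * (2 * m - 2)))) :
    0 ≤ (-1) ^ m * ∫ p, K.gb p ∂μ ∧
      (Integrable K.gb μ → μ {p | 0 < c p ∧ scal (K.e p) (K.R p) <
        -(c p * ((2 * m - 1) * (2 * m - 2)))} ≠ 0 → 0 < (-1) ^ m * ∫ p, K.gb p ∂μ) := by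
  have h0 : ∀ p, 0 ≤ (-1) ^ m * K.gb p := fun p =>
    sign (K.e p) (K.curv p) (h p).1 (h p).2.1 (h p).2.2
  rw [← integral_const_mul]
  refine ⟨integral_nonneg h0, fun hi hμ => ?_⟩
  refine pos_of μ _ h0 (hi.const_mul _) _ ?_ hμ
  rintro p ⟨hp1, hp2⟩
  exact sign_strict (K.e p) (K.curv p) hp1 (h p).2.1 hp2

/-- the quantitative form of the integral -/
theorem field_point (μ : Measure M) (K : CurvField m M) {c : ℝ} (hc : 0 < c)
    (h : ∀ p, OpNonneg (addT (K.R p) fun x y z w => c * unitT x y z w) ∧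
      scal (K.e p) (K.R p) ≤ -(c * ((2 * m - 1) * (2 * m - 2))))
    (hi : Integrable K.gb μ) (hi' : Integrable (fun p => scal (K.e p) (K.R p)) μ)
    [IsFiniteMeasure μ] :
    roundGB m c * (∫ p, -(scal (K.e p) (K.R p)) ∂μ - c * ((2 * m - 1) * (2 * m - 2)) *
      μ.real Set.univ) ≤ 2 * c * (2 * m - 1) * ((-1) ^ m * ∫ p, K.gb p ∂μ) := by
  have h1 : ∫ p, roundGB m c * (-(scal (K.e p) (K.R p)) - c * ((2 * m - 1) * (2 * m - 2))) ∂μ ≤
      ∫ p, 2 * c * (2 * m - 1) * ((-1) ^ m * K.gb p) ∂μ := by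
    refine integral_mono ?_ ?_ fun p => point (K.e p) (K.curv p) hc (h p).1 (h p).2
    · exact (hi'.neg.sub (integrable_const _)).const_mul _
    · exact (hi.const_mul _).const_mul _
  have e2 : ∫ p, (-(scal (K.e p) (K.R p)) - c * ((2 * m - 1) * (2 * m - 2))) ∂μ =
      ∫ p, -(scal (K.e p) (K.R p)) ∂μ - ∫ _, c * ((2 * m - 1) * (2 * m - 2)) ∂μ :=
    integral_sub hi'.neg (integrable_const _)
  rw [integral_const_mul, integral_const_mul, integral_const_mul, e2, integral_const,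
    smul_eq_mul] at h1
  have e1 : ∀ a b : ℝ, a * b = b * a := mul_comm
  rw [e1 (c * _) (μ.real Set.univ)]
  exact h1

/-- the positive version of the pointwise inequality -/
theorem point_pos {V : Type} [NormedAddCommGroup V] [InnerProductSpace ℝ V]
    (e : OrthonormalBasis (Fin m × Bool) ℝ V) {R : V → V → V → V → ℝ}
    (hR : AlgCurv R) {c : ℝ} (hc : 0 < c)
    (h : OpNonneg (addT (negT R) fun x y z w => c * unitT x y z w))
    (hs : c * ((2 * m - 1) * (2 * m - 2)) ≤ scal e R) :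
    roundGB m c * (scal e R - c * ((2 * m - 1) * (2 * m - 2))) ≤
      2 * c * (2 * m - 1) * gbc e R := by
  have h1 := point e (neg_curv hR) hc h (by rw [scal_neg]; linarith)
  rw [gbc_neg, scal_neg, neg_neg] at h1
  exact h1

/-- the positive version of the integrated form -/
theorem field_pos (μ : Measure M) (K : CurvField m M) (c : M → ℝ)
    (h : ∀ p, 0 ≤ c p ∧ OpNonneg (addT (negT (K.R p)) fun x y z w => c p * unitT x y z w) ∧
      c p * ((2 * m - 1) * (2 * m - 2)) ≤ scal (K.e p) (K.R p)) :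
    0 ≤ ∫ p, K.gb p ∂μ ∧
      (Integrable K.gb μ → μ {p | 0 < c p ∧ c p * ((2 * m - 1) * (2 * m - 2)) <
        scal (K.e p) (K.R p)} ≠ 0 → 0 < ∫ p, K.gb p ∂μ) := by
  have h0 : ∀ p, 0 ≤ K.gb p := by
    intro p
    have := sign (K.e p) (neg_curv (K.curv p)) (h p).1 (h p).2.1
      (by rw [scal_neg]; linarith [(h p).2.2])
    rw [gbc_neg] at this
    exact this
  refine ⟨integral_nonneg h0, fun hi hμ => ?_⟩
  refine pos_of μ _ h0 hi _ ?_ hμ
  rintro p ⟨hp1, hp2⟩
  have := sign_strict (K.e p) (neg_curv (K.curv p)) hp1 (h p).2.1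
    (by rw [scal_neg]; linarith)
  rw [gbc_neg] at this
  exact this

/-- the equality family -/
theorem eq_family {V : Type} [NormedAddCommGroup V] [InnerProductSpace ℝ V]
    (e : OrthonormalBasis (Fin m × Bool) ℝ V) (hm : 1 ≤ m) {c t : ℝ} (hc : 0 < c) (ht : 0 ≤ t) :
    ∃ R : V → V → V → V → ℝ, AlgCurv R ∧ OpNonneg (addT R fun x y z w => c * unitT x y z w) ∧
      scal e R = -(c * ((2 * m - 1) * (2 * m - 2))) + (t - 1) * (2 * c * (2 * m - 1)) ∧
      (-1) ^ m * gbc e R = (1 - t) * roundGB m c := by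
  have h := equality e hm hc ht (⟨0, hm⟩, false)
  exact ⟨_, Rt_curv _ c t, Rt_op _ hc.le ht, h.1, h.2⟩

theorem negneg {V : Type} (R : V → V → V → V → ℝ) : negT (negT R) = R := by
  funext x y z w
  simp [negT]

/-- the equality family, positive version -/
theorem eq_family_pos {V : Type} [NormedAddCommGroup V] [InnerProductSpace ℝ V]
    (e : OrthonormalBasis (Fin m × Bool) ℝ V) (hm : 1 ≤ m) {c t : ℝ} (hc : 0 < c) (ht : 0 ≤ t) :
    ∃ R : V → V → V → V → ℝ, AlgCurv R ∧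
      OpNonneg (addT (negT R) fun x y z w => c * unitT x y z w) ∧
      scal e R = c * ((2 * m - 1) * (2 * m - 2)) - (t - 1) * (2 * c * (2 * m - 1)) ∧
      gbc e R = (1 - t) * roundGB m c := by
  obtain ⟨R, h1, h2, h3, h4⟩ := eq_family e hm hc ht
  refine ⟨negT R, neg_curv h1, ?_, ?_, ?_⟩
  · rw [negneg]; exact h2
  · rw [scal_neg, h3]; ring
  · rw [← h4, ← gbc_neg, negneg]

end Pool.Agent.TH594.HP
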