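import Pool.Agent.W669.HD.Main

/-!
# Invariance of traces and a basis diagonalising a symmetric bilinear form
-/

set_option autoImplicit false

namespace Pool.Agent.TH594.HP

open Finset

section

variable {ι V : Type*} [Fintype ι] [NormedAddCommGroup V] [InnerProductSpace ℝ V]

/-- traces do not depend on the orthonormal basis -/
theorem tr_basis (e e' : OrthonormalBasis ι ℝ V) (β : V →ₗ[ℝ] V →ₗ[ℝ] ℝ) :
    ∑ i, β (e i) (e i) = ∑ i, β (e' i) (e' i) := by
  have h1 : ∀ i, β (e i) (e i) = ∑ j, ∑ k, (inner ℝ (e' j) (e i) * inner ℝ (e i) (e' k)) *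
      β (e' j) (e' k) := by
    intro i
    have hx : e i = ∑ j, inner ℝ (e' j) (e i) • e' j := (e'.sum_repr' (e i)).symm
    conv_lhs => rw [hx]
    simp only [map_sum, LinearMap.sum_apply, map_smul, LinearMap.smul_apply, smul_eq_mul,
      Finset.mul_sum]
    rw [Finset.sum_comm]
    refine Finset.sum_congr rfl fun j _ => Finset.sum_congr rfl fun k _ => ?_
    rw [real_inner_comm (e i) (e' k)]; ring
  simp only [h1]
  rw [Finset.sum_comm]
  refine Finset.sum_congr rfl fun j _ => ?_
  rw [Finset.sum_comm]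
  have h2 : ∀ k, ∑ i, (inner ℝ (e' j) (e i) * inner ℝ (e i) (e' k)) * β (e' j) (e' k) =
      inner ℝ (e' j) (e' k) * β (e' j) (e' k) := by
    intro k
    rw [← Finset.sum_mul, e.sum_inner_mul_inner]
  simp only [h2]
  classical
  rw [Finset.sum_eq_single j]
  · rw [real_inner_self_eq_norm_sq, e'.norm_eq_one]; ring
  · intro k _ hk
    rw [e'.inner_eq_zero (Ne.symm hk), zero_mul]
  · simp

/-- an orthonormal basis diagonalising a symmetric bilinear form -/
theorem exists_diag (e : OrthonormalBasis ι ℝ V) (β : V →ₗ[ℝ] V →ₗ[ℝ] ℝ)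
    (hs : ∀ x y, β x y = β y x) :
    ∃ e' : OrthonormalBasis ι ℝ V, ∀ i j, i ≠ j → β (e' i) (e' j) = 0 := by
  classical
  haveI : FiniteDimensional ℝ V := e.toBasis.finiteDimensional_of_finite
  let A : V →ₗ[ℝ] V := ∑ l, (β.flip (e l)).smulRight (e l)
  have hA : ∀ x y, inner ℝ (A x) y = β x y := by
    intro x y
    have h1 : A x = ∑ l, β x (e l) • e l := by
      simp [A, LinearMap.sum_apply]
    rw [h1, sum_inner]
    simp only [inner_smul_left, conj_trivial]
    have h2 : y = ∑ l, inner ℝ (e l) y • e l := (e.sum_repr' y).symm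
    conv_rhs => rw [h2]
    simp only [map_sum, map_smul, smul_eq_mul]
    exact Finset.sum_congr rfl fun l _ => mul_comm _ _
  have hsym : A.IsSymmetric := by
    intro x y
    rw [hA, real_inner_comm, hA, hs]
  have hn : Module.finrank ℝ V = Fintype.card ι := by
    rw [Module.finrank_eq_card_basis e.toBasis]
  let b := hsym.eigenvectorBasis hn
  refine ⟨b.reindex (Fintype.equivFin ι).symm, ?_⟩
  intro i j hij
  rw [← hA]
  simp only [OrthonormalBasis.reindex_apply, Equiv.symm_symm]
  rw [hsym.apply_eigenvectorBasis hn]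
  rw [inner_smul_left]
  have : inner ℝ (b (Fintype.equivFin ι i)) (b (Fintype.equivFin ι j)) = 0 :=
    b.inner_eq_zero fun h => hij ((Fintype.equivFin ι).injective h)
  show _ * inner ℝ (b (Fintype.equivFin ι i)) (b (Fintype.equivFin ι j)) = 0
  rw [this, mul_zero]

end

end Pool.Agent.TH594.HP
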