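import Pool.Agent.TH594.HP.Vec

/-!
# The third trace in dimension six
-/

set_option autoImplicit false

namespace Pool.Agent.TH594.HP

open Finset

variable {J : Type*} [Fintype J] [DecidableEq J] {K : Type*} [Fintype K]

/-- restriction to the complement of an index -/
def rs (i : J) (ν : K → J → J → ℝ) (a : K) (k l : J) : ℝ := if k = i ∨ l = i then 0 else ν a k l

omit [Fintype J] [Fintype K] in
theorem rs_anti {ν : K → J → J → ℝ} (h : ∀ a i j, ν a j i = - ν a i j) (i : J) (a : K) (k l : J) :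
    rs i ν a l k = - rs i ν a k l := by
  unfold rs
  by_cases hk : k = i
  · simp [hk]
  · by_cases hl : l = i
    · simp [hl]
    · simp [hk, hl, h a k l]

omit [Fintype J] in
theorem EE_rs (i : J) (ν : K → J → J → ℝ) (p q k l : J) :
    EE (rs i ν) p q k l = if p = i ∨ q = i ∨ k = i ∨ l = i then 0 else EE ν p q k l := by
  unfold EE rs
  by_cases hp : p = i
  · simp [hp]
  by_cases hq : q = i
  · simp [hq]
  by_cases hk : k = i
  · simp [hk]
  by_cases hl : l = i
  · simp [hl]
  simp [hp, hq, hk, hl]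

theorem BiN_rs {ν : K → J → J → ℝ} (h : BiN ν) (i : J) : BiN (rs i ν) where
  anti := rs_anti h.anti i
  bia := by
    intro p q k l
    rw [EE_rs, EE_rs, EE_rs]
    by_cases hp : p = i
    · simp [hp]
    by_cases hq : q = i
    · simp [hq]
    by_cases hk : k = i
    · simp [hk]
    by_cases hl : l = i
    · simp [hl]
    simp only [hp, hq, hk, hl, or_self, if_false]
    exact h.bia p q k l

omit [Fintype J] in
theorem EE_diag {ν : K → J → J → ℝ} (h : ∀ a i j, ν a j i = - ν a i j) (i j k : J) :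
    EE ν i i j k = 0 := by
  have := EE_12 h i i j k
  linarith

theorem tt_rs {ν : K → J → J → ℝ} (h : ∀ a i j, ν a j i = - ν a i j) (i : J) :
    tt (rs i ν) = tt ν - 2 * rc ν i i := by
  have h1 : ∀ k l : J, EE ν k l k l = EE (rs i ν) k l k l +
      ((if k = i then EE ν i l i l else 0) + (if l = i then EE ν k i k i else 0)) := by
    intro k l
    rw [EE_rs]
    by_cases hk : k = i
    · subst hk
      by_cases hl : l = k
      · subst hl
        simp [EE_diag h]
      · simp [hl]
    · by_cases hl : l = i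
      · subst hl
        simp [hk]
      · simp [hk, hl]
  have h2 : tt ν = tt (rs i ν) + (∑ l, EE ν i l i l + ∑ k, EE ν k i k i) := by
    unfold tt
    rw [Finset.sum_congr rfl fun k _ => Finset.sum_congr rfl fun l _ => h1 k l]
    simp only [Finset.sum_add_distrib]
    congr 1
    congr 1
    · rw [Finset.sum_comm]
      refine Finset.sum_congr rfl fun l _ => ?_
      simp
    · refine Finset.sum_congr rfl fun k _ => ?_
      simp
  have h3 : ∑ l, EE ν i l i l = rc ν i i := by
    unfold rc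
    refine Finset.sum_congr rfl fun l _ => ?_
    rw [EE_12 h l i, EE_34 h l i l i, neg_neg]
  have h4 : ∑ k, EE ν k i k i = rc ν i i := rfl
  rw [h2, h3, h4]; ring

theorem L_rs {ν : K → J → J → ℝ} (h : ∀ a i j, ν a j i = - ν a i j) (i : J) (a : K) (f : Fk J) :
    L (ν a) f = L (rs i ν a) f + (2 : ℝ) • cr i (cv (ν a i) f) := by
  have hii : ν a i i = 0 := by
    have := h a i i
    linarith
  have h1 : ∀ k l : J, ν a k l • cr k (cr l f) = rs i ν a k l • cr k (cr l f) +
      ((if k = i then ν a i l • cr i (cr l f) else 0) +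
        (if l = i then ν a k i • cr k (cr i f) else 0)) := by
    intro k l
    unfold rs
    by_cases hk : k = i
    · subst hk
      by_cases hl : l = k
      · subst hl
        simp [hii]
      · simp [hl]
    · by_cases hl : l = i
      · subst hl
        simp [hk]
      · simp [hk, hl]
  rw [L_apply, L_apply]
  rw [Finset.sum_congr rfl fun k _ => Finset.sum_congr rfl fun l _ => h1 k l]
  simp only [Finset.sum_add_distrib]
  congr 1
  have h2 : cr i (cv (ν a i) f) = ∑ l, ν a i l • cr i (cr l f) := by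
    rw [cv_apply]
    simp only [map_sum, map_smul]
  have h3 : ∑ k, ∑ l, (if k = i then ν a i l • cr i (cr l f) else 0) = cr i (cv (ν a i) f) := by
    rw [h2, Finset.sum_comm]
    refine Finset.sum_congr rfl fun l _ => ?_
    simp
  have h4 : ∑ k, ∑ l, (if l = i then ν a k i • cr k (cr i f) else 0) = cr i (cv (ν a i) f) := by
    rw [h2]
    refine Finset.sum_congr rfl fun k _ => ?_
    simp only [Finset.sum_ite_eq', Finset.mem_univ, if_true]
    rw [h a i k, cr_cr k i, smul_neg, neg_smul, neg_neg]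
  rw [h3, h4, two_smul]

theorem cv_single' (i : J) (f : Fk J) : cv (Pi.single i 1) f = cr i f := by
  rw [cv_single]; rfl

theorem ct_single (i : J) (μ : J → J → ℝ) : ct (Pi.single i 1) μ = μ i := by
  funext k
  unfold ct
  rw [Finset.sum_eq_single i]
  · rw [Pi.single_eq_same, one_mul]
  · intro j _ hj
    rw [Pi.single_eq_of_ne hj, zero_mul]
  · simp

theorem an_L {μ : J → J → ℝ} (h : ∀ i j, μ j i = - μ i j) (i : J) (f : Fk J) :
    an i (L μ f) = L μ (an i f) + (2 : ℝ) • cv (μ i) f := by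
  rw [← av_single i, av_L h, av_single, ct_single]

theorem cv_zero (f : Fk J) : cv (0 : J → ℝ) f = 0 := by
  rw [cv_apply]
  simp

theorem an_L_rs {ν : K → J → J → ℝ} (h : ∀ a i j, ν a j i = - ν a i j) (i : J) (a : K)
    (f : Fk J) : an i (L (rs i ν a) f) = L (rs i ν a) (an i f) := by
  rw [an_L (rs_anti h i a)]
  have h1 : rs i ν a i = 0 := by
    funext l
    simp [rs]
  rw [h1, cv_zero, smul_zero, add_zero]

theorem cr_self (i : J) (f : Fk J) : cr i (cr i f) = 0 := by
  have := cr_cr i i f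
  exact self_eq_neg.mp this

theorem cr_L_rs {ν : K → J → J → ℝ} (h : ∀ a i j, ν a j i = - ν a i j) (i : J) (a : K)
    (f : Fk J) : cr i (L (ν a) f) = L (rs i ν a) (cr i f) := by
  rw [L_rs h i a f, map_add, map_smul, cr_self, smul_zero, add_zero, ← cv_single', ← L_cv,
    cv_single']

theorem nn_cr_LL {ν : K → J → J → ℝ} (h : ∀ a i j, ν a j i = - ν a i j) (i : J) (a b : K) :
    nn (cr i (L (ν b) (L (ν a) vac))) = nn (L (rs i ν b) (L (rs i ν a) vac)) := by
  rw [cr_L_rs h, cr_L_rs h]
  have e1 : L (rs i ν b) (L (rs i ν a) (cr i vac)) = cr i (L (rs i ν b) (L (rs i ν a) vac)) := by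
    rw [← cv_single', L_cv, L_cv, cv_single']
  rw [e1]
  have e2 := nn_split i (L (rs i ν b) (L (rs i ν a) (vac : Fk J)))
  rw [an_L_rs h, an_L_rs h, an_vac, map_zero, map_zero] at e2
  have h0 : nn (0 : Fk J) = 0 := ip_zero_left _
  rw [h0, add_zero] at e2
  exact e2.symm

theorem an_LL {ν : K → J → J → ℝ} (h : ∀ a i j, ν a j i = - ν a i j) (i : J) (a b : K) :
    an i (L (ν b) (L (ν a) vac)) =
      (2 : ℝ) • (cv (ν a i) (L (rs i ν b) vac) + cv (ν b i) (L (rs i ν a) vac)) := by
  rw [an_L (h b), an_L (h a), an_vac, map_zero, zero_add, map_smul, L_cv, ← smul_add]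
  congr 1
  rw [L_rs h i b, L_rs h i a, map_add, map_add, map_smul, map_smul]
  have e1 : ∀ x y : J → ℝ, cv x (cr i (cv y (vac : Fk J))) = - cv y (cr i (cv x vac)) := by
    intro x y
    rw [← cv_single', cv_cv x, cv_cv x y, ← cv_single' i, cv_cv y (Pi.single i 1)]
    simp
  rw [e1 (ν a i) (ν b i)]
  simp only [smul_neg]
  abel

theorem nn_add (f g : Fk J) : nn (f + g) = nn f + 2 * ip f g + nn g := by
  unfold nn
  rw [ip_add_left, ip_add_right, ip_add_right, ip_comm g f]; ring

theorem nn_sm (t : ℝ) (f : Fk J) : nn (t • f) = t ^ 2 * nn f := by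
  unfold nn
  rw [ip_smul_left, ip_smul_right]; ring

/-- the cross term -/
theorem cross_nonneg {ν : K → J → J → ℝ} (h : ∀ a i j, ν a j i = - ν a i j)
    (hr : ∀ j l, j ≠ l → rc ν j l = 0) (i : J) :
    0 ≤ ∑ a, ∑ b, ip (cv (ν a i) (L (rs i ν b) vac)) (cv (ν b i) (L (rs i ν a) vac)) := by
  have h1 : ∀ a b, ip (cv (ν a i) (L (rs i ν b) (vac : Fk J))) (cv (ν b i) (L (rs i ν a) vac)) =
      ∑ p, ip (ν b i p • L (rs i ν b) (vac : Fk J)) (ν a i p • L (rs i ν a) vac) -
        ip (L (rs i ν b) vac) (cv (ν b i) (av (ν a i) (L (rs i ν a) vac))) := by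
    intro a b
    rw [adjv, av_cv, ip_sub_right, ip_smul_right]
    congr 1
    rw [dt, Finset.sum_mul]
    refine Finset.sum_congr rfl fun p _ => ?_
    rw [ip_smul_left, ip_smul_right]; ring
  have h2 : ∑ a, av (ν a i) (L (rs i ν a) (vac : Fk J)) = 0 := by
    have e1 : ∀ a, av (ν a i) (L (rs i ν a) (vac : Fk J)) =
        ∑ k, (2 * ct (ν a i) (rs i ν a) k) • cr k vac := by
      intro a
      rw [av_L (rs_anti h i a), av_vac, map_zero, zero_add, cv_apply, Finset.smul_sum]
      simp only [smul_smul]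
    simp only [e1]
    rw [Finset.sum_comm]
    refine Finset.sum_eq_zero fun k _ => ?_
    rw [← Finset.sum_smul, ← Finset.mul_sum]
    have e2 : ∑ a, ct (ν a i) (rs i ν a) k = 0 := by
      by_cases hk : k = i
      · refine Finset.sum_eq_zero fun a _ => ?_
        unfold ct
        refine Finset.sum_eq_zero fun l _ => ?_
        simp [rs, hk]
      · have e3 : ∑ a, ct (ν a i) (rs i ν a) k = ∑ l, EE ν i l l k := by
          unfold ct EE
          rw [Finset.sum_comm]
          refine Finset.sum_congr rfl fun l _ => Finset.sum_congr rfl fun a _ => ?_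
          unfold rs
          by_cases hl : l = i
          · subst hl
            have : ν a l l = 0 := by
              have := h a l l
              linarith
            rw [this]; ring
          · rw [if_neg (by tauto)]
        have e4 : ∑ l, EE ν i l l k = - rc ν i k := by
          unfold rc
          rw [← Finset.sum_neg_distrib]
          refine Finset.sum_congr rfl fun l _ => ?_
          rw [EE_12 h l i]
        rw [e3, e4, hr i k (Ne.symm hk), neg_zero]
    rw [e2, mul_zero, zero_smul]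
  have h3 : ∑ a, ∑ b, ip (cv (ν a i) (L (rs i ν b) (vac : Fk J))) (cv (ν b i) (L (rs i ν a) vac)) =
      ∑ p, nn (∑ a, ν a i p • L (rs i ν a) (vac : Fk J)) := by
    simp only [h1, Finset.sum_sub_distrib]
    have e1 : ∑ a, ∑ b, ip (L (rs i ν b) (vac : Fk J))
        (cv (ν b i) (av (ν a i) (L (rs i ν a) vac))) = 0 := by
      rw [Finset.sum_comm]
      refine Finset.sum_eq_zero fun b _ => ?_
      rw [← ip_sum_right, ← map_sum, h2, map_zero, ip_zero_right]
    rw [e1, sub_zero]
    have e2 : ∀ p, nn (∑ a, ν a i p • L (rs i ν a) (vac : Fk J)) =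
        ∑ a, ∑ b, ip (ν b i p • L (rs i ν b) (vac : Fk J)) (ν a i p • L (rs i ν a) vac) := by
      intro p
      unfold nn
      rw [ip_sum_left]
      rw [Finset.sum_comm]
      refine Finset.sum_congr rfl fun b _ => ?_
      rw [ip_sum_right]
    simp only [e2]
    rw [Finset.sum_comm]
    conv_rhs => rw [Finset.sum_comm]
    have e3 : ∀ G : K → K → J → ℝ, ∑ b, ∑ a, ∑ p, G a b p = ∑ a, ∑ p, ∑ b, G a b p := by
      intro G
      rw [Finset.sum_comm]
      refine Finset.sum_congr rfl fun a _ => ?_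
      exact Finset.sum_comm
    exact e3 _
  rw [h3]
  exact Finset.sum_nonneg fun _ _ => nn_nonneg _

theorem w_two (ν : K → J → J → ℝ) :
    w ν 2 = ∑ a, ∑ b, nn (L (ν b) (L (ν a) (vac : Fk J))) := by
  unfold w
  rw [pow_two, Module.End.mul_apply, O1_apply]
  exact Finset.sum_congr rfl fun a _ => O1_apply _ _ _

/-- the estimate for one index -/
theorem one_index {ν : K → J → J → ℝ} (h : BiN ν) (hr : ∀ j l, j ≠ l → rc ν j l = 0) (i : J) :
    8 * (rc ν i i * w (rs i ν) 2) ≤ 9 * ((tt ν - 2 * rc ν i i) * (w ν 2 - w (rs i ν) 2)) := by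
  have hy : w ν 2 - w (rs i ν) 2 = ∑ a, ∑ b, nn (an i (L (ν b) (L (ν a) (vac : Fk J)))) := by
    rw [w_two, w_two, ← Finset.sum_sub_distrib]
    refine Finset.sum_congr rfl fun a _ => ?_
    rw [← Finset.sum_sub_distrib]
    refine Finset.sum_congr rfl fun b _ => ?_
    rw [← nn_cr_LL h.anti i a b, nn_split i (L (ν b) (L (ν a) (vac : Fk J)))]
    ring
  have hy2 : w ν 2 - w (rs i ν) 2 =
      8 * ∑ a, ∑ b, nn (cv (ν a i) (L (rs i ν b) (vac : Fk J))) +
      8 * ∑ a, ∑ b, ip (cv (ν a i) (L (rs i ν b) (vac : Fk J))) (cv (ν b i) (L (rs i ν a) vac)) := by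
    rw [hy]
    have e1 : ∀ a b, nn (an i (L (ν b) (L (ν a) (vac : Fk J)))) =
        4 * nn (cv (ν a i) (L (rs i ν b) (vac : Fk J))) +
        8 * ip (cv (ν a i) (L (rs i ν b) (vac : Fk J))) (cv (ν b i) (L (rs i ν a) vac)) +
        4 * nn (cv (ν b i) (L (rs i ν a) (vac : Fk J))) := by
      intro a b
      rw [an_LL h.anti, nn_sm, nn_add]; ring
    simp only [e1, Finset.sum_add_distrib, ← Finset.mul_sum]
    have e2 : ∑ a, ∑ b, nn (cv (ν b i) (L (rs i ν a) (vac : Fk J))) =
        ∑ a, ∑ b, nn (cv (ν a i) (L (rs i ν b) (vac : Fk J))) := Finset.sum_comm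
    rw [e2]; ring
  have hc := cross_nonneg h.anti hr i
  have hB := BiN_rs h i
  have hM : rc ν i i * w (rs i ν) 2 ≤
      9 * tt (rs i ν) * ∑ a, ∑ b, nn (cv (ν a i) (L (rs i ν b) (vac : Fk J))) := by
    have e1 : rc ν i i = ∑ a, dt (ν a i) (ν a i) := by
      unfold rc EE dt
      rw [Finset.sum_comm]
      refine Finset.sum_congr rfl fun a _ => Finset.sum_congr rfl fun l _ => ?_
      rw [h.anti a i l]; ring
    rw [e1, Finset.sum_mul, Finset.mul_sum]
    exact Finset.sum_le_sum fun a _ => lemM hB (ν a i)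
  have hT := tt_nonneg (rs i ν)
  rw [tt_rs h.anti] at hM hT
  rw [hy2]
  nlinarith [mul_nonneg hT hc]

theorem one_index' {ν : K → J → J → ℝ} (h : BiN ν) (hr : ∀ j l, j ≠ l → rc ν j l = 0) (i : J) :
    rc ν i i * w (rs i ν) 2 ≤ 3 / 20 * tt ν * w (rs i ν) 2 + 3 / 10 * rc ν i i * w ν 2 := by
  have h1 := one_index h hr i
  have hr0 : 0 ≤ rc ν i i := by
    unfold rc EE
    exact Finset.sum_nonneg fun _ _ => Finset.sum_nonneg fun _ _ => mul_self_nonneg _
  have hT := tt_nonneg (rs i ν)
  rw [tt_rs h.anti] at hT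
  have hx := w_nonneg (rs i ν) 2
  have hW := w_nonneg ν 2
  set r := rc ν i i
  set x := w (rs i ν) 2
  set W := w ν 2
  set T := tt ν
  rcases le_or_gt r (3 / 20 * T) with h2 | h2
  · nlinarith [mul_nonneg hr0 hW, mul_nonneg (sub_nonneg.2 h2) hx]
  · have hT0 : 0 < T := by
      by_contra hc
      have : T ≤ 0 := not_lt.mp hc
      have h3 : r ≤ 0 := by linarith
      have h4 : r = 0 := le_antisymm h3 hr0
      rw [h4] at h2 hT
      linarith
    have h3 : 0 < 9 * T - 10 * r := by linarith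
    have h4 : x * (9 * T - 10 * r) ≤ 9 * (T - 2 * r) * W := by nlinarith
    have h5 : (r - 3 / 20 * T) * (9 * (T - 2 * r)) ≤ 3 / 10 * r * (9 * T - 10 * r) := by
      nlinarith [sq_nonneg (r - 3 / 10 * T)]
    have h6 : (r - 3 / 20 * T) * x * (9 * T - 10 * r) ≤ 3 / 10 * r * W * (9 * T - 10 * r) := by
      have e1 : (r - 3 / 20 * T) * (x * (9 * T - 10 * r)) ≤
          (r - 3 / 20 * T) * (9 * (T - 2 * r) * W) :=
        mul_le_mul_of_nonneg_left h4 (by linarith)
      have e2 : (r - 3 / 20 * T) * (9 * (T - 2 * r)) * W ≤ 3 / 10 * r * (9 * T - 10 * r) * W :=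
        mul_le_mul_of_nonneg_right h5 hW
      nlinarith
    have h7 := le_of_mul_le_mul_right h6 h3
    linarith

theorem Rn_diag {ν : K → J → J → ℝ} (hr : ∀ j l, j ≠ l → rc ν j l = 0) (f : Fk J) :
    Rn ν f = ∑ j, rc ν j j * nn (an j f) := by
  unfold Rn
  refine Finset.sum_congr rfl fun j _ => ?_
  rw [Finset.sum_eq_single j]
  · rfl
  · intro l _ hl
    rw [hr j l (Ne.symm hl), zero_mul]
  · simp

/-- the third trace in dimension six, in a basis diagonalising the Ricci form -/
theorem w_three_diag {ν : K → J → J → ℝ} (h : BiN ν) (hr : ∀ j l, j ≠ l → rc ν j l = 0)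
    (hJ : Fintype.card J = 6) : w ν 3 ≤ 6 / 5 * tt ν * w ν 2 := by
  have hA : ∀ f : Fk J, Ls ν f ≤ ∑ j, 2 * rc ν j j * nn (cr j f) := by
    intro f
    have h1 := Ls_le h f
    rw [Rn_diag hr] at h1
    refine h1.trans (le_of_eq ?_)
    rw [tt_eq, Finset.mul_sum, Finset.sum_mul, Finset.mul_sum, ← Finset.sum_sub_distrib]
    refine Finset.sum_congr rfl fun j _ => ?_
    rw [nn_split j f]; ring
  have hX : ∀ j : J, ((O1 ν) ^ 2) (fun f => nn (cr j f)) vac = w (rs j ν) 2 := by
    intro j
    rw [w_two, pow_two, Module.End.mul_apply, O1_apply]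
    refine Finset.sum_congr rfl fun a _ => ?_
    rw [O1_apply]
    exact Finset.sum_congr rfl fun b _ => nn_cr_LL h.anti j a b
  have h1 : w ν 3 ≤ ∑ j, 2 * rc ν j j * w (rs j ν) 2 := by
    unfold w
    rw [pow_succ, Module.End.mul_apply]
    have e1 := O1_mono ν 2 (O1 ν nn) (∑ j, (2 * rc ν j j) • (fun f => nn (cr j f))) (fun f => by
      rw [O1_nn, Finset.sum_apply]
      exact hA f) vac
    refine e1.trans (le_of_eq ?_)
    rw [map_sum, Finset.sum_apply]
    refine Finset.sum_congr rfl fun j _ => ?_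
    rw [map_smul, Pi.smul_apply, smul_eq_mul, hX]
    rfl
  have h2 : ∑ j, w (rs j ν) 2 = 2 * w ν 2 := by
    have e1 : ∑ j : J, w (rs j ν) 2 = ((O1 ν) ^ 2) (∑ j, fun f => nn (cr j f)) vac := by
      rw [map_sum, Finset.sum_apply]
      exact Finset.sum_congr rfl fun j _ => (hX j).symm
    rw [e1]
    refine O1_congr ν 2 0 _ nn 2 ?_ vac Dg_vac
    intro f hf
    rw [Finset.sum_apply, sum_nn_cr hf, hJ]
    norm_num
  have h3 : ∑ j, 2 * rc ν j j * w (rs j ν) 2 ≤
      ∑ j, 2 * (3 / 20 * tt ν * w (rs j ν) 2 + 3 / 10 * rc ν j j * w ν 2) := by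
    refine Finset.sum_le_sum fun j _ => ?_
    have := one_index' h hr j
    linarith
  refine (h1.trans h3).trans (le_of_eq ?_)
  rw [← Finset.mul_sum, Finset.sum_add_distrib, ← Finset.mul_sum, h2, ← Finset.sum_mul,
    ← Finset.mul_sum, ← tt_eq]
  ring

end Pool.Agent.TH594.HP
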