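import Pool.Agent.TH594.HP.Alt
import Pool.Agent.TH594.HP.Six
import Pool.Agent.TH594.HP.Diag

/-!
# The pointwise inequality
-/

set_option autoImplicit false

namespace Pool.Agent.TH594.HP

open Finset
open Pool.Agent.W666.GB (AlgCurv gbc scal roundGB unitCurv)
open Pool.Agent.W669.HD (T4 gm cp negT addT unitT OpNonneg BiForm gbc_eq cp_unit unit_bi unit_curv
  add_curv)

section bases

variable {m : ℕ} {V : Type*} [NormedAddCommGroup V] [InnerProductSpace ℝ V]

/-- the bilinear form `x, x' ↦ E (x, y, x', w)` -/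
def lb {E : V → V → V → V → ℝ} (h : AlgCurv E) (y w : V) : V →ₗ[ℝ] V →ₗ[ℝ] ℝ :=
  LinearMap.mk₂ ℝ (fun x x' => E x y x' w) (fun x x' z => h.add x x' y z w)
    (fun t x z => by rw [smul_eq_mul, h.smul]) (fun x z z' => h.add3 x y z z' w)
    (fun t x z => by rw [smul_eq_mul, h.smul3])

/-- the Ricci form -/
noncomputable def ricB (e : OrthonormalBasis (Fin m × Bool) ℝ V) {E : V → V → V → V → ℝ} (h : AlgCurv E) :
    V →ₗ[ℝ] V →ₗ[ℝ] ℝ :=
  LinearMap.mk₂ ℝ (fun y w => ∑ i, E (e i) y (e i) w)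
    (fun x x' z => by simp only [h.add2, Finset.sum_add_distrib])
    (fun t x z => by simp only [h.smul2, smul_eq_mul, Finset.mul_sum])
    (fun x z z' => by simp only [h.add4, Finset.sum_add_distrib])
    (fun t x z => by simp only [h.smul4, smul_eq_mul, Finset.mul_sum])

theorem ric_basis (e e' : OrthonormalBasis (Fin m × Bool) ℝ V) {E : V → V → V → V → ℝ}
    (h : AlgCurv E) (y w : V) : ∑ i, E (e i) y (e i) w = ∑ i, E (e' i) y (e' i) w :=
  tr_basis e e' (lb h y w)

theorem scal_basis (e e' : OrthonormalBasis (Fin m × Bool) ℝ V) {E : V → V → V → V → ℝ}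
    (h : AlgCurv E) : scal e E = scal e' E := by
  unfold scal
  rw [Finset.sum_comm]
  conv_rhs => rw [Finset.sum_comm]
  have h1 : ∑ y, ∑ x, E (e x) (e y) (e x) (e y) = ∑ y, ricB e' h (e y) (e y) :=
    Finset.sum_congr rfl fun y _ => ric_basis e e' h (e y) (e y)
  rw [h1, tr_basis e e']
  rfl

theorem exists_ricci_basis (e : OrthonormalBasis (Fin m × Bool) ℝ V) {E : V → V → V → V → ℝ}
    (h : AlgCurv E) : ∃ e' : OrthonormalBasis (Fin m × Bool) ℝ V,
      ∀ j l, j ≠ l → ∑ i, E (e' i) (e' j) (e' i) (e' l) = 0 := by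
  obtain ⟨e', he⟩ := exists_diag e (ricB e h) (by
    intro x y
    show ∑ i, E (e i) x (e i) y = ∑ i, E (e i) y (e i) x
    exact Finset.sum_congr rfl fun i _ => h.pair _ _ _ _)
  refine ⟨e', fun j l hjl => ?_⟩
  rw [← ric_basis e e' h]
  exact he j l hjl

theorem scal_unit (e : OrthonormalBasis (Fin m × Bool) ℝ V) (c : ℝ) :
    scal e (fun x y z w => c * unitT x y z w) = c * (2 * m * (2 * m - 1)) := by
  unfold scal
  simp only [cp_unit, ← Finset.mul_sum]
  congr 1
  simp only [unitCurv, if_true, one_mul, Finset.sum_sub_distrib, Finset.sum_const,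
    Finset.card_univ, Fintype.card_prod, Fintype.card_fin, Fintype.card_bool, nsmul_eq_mul]
  have h1 : ∑ i : Fin m × Bool, ∑ j : Fin m × Bool,
      (if i = j then (1 : ℝ) else 0) * (if j = i then 1 else 0) = 2 * m := by
    have : ∀ i : Fin m × Bool, ∑ j : Fin m × Bool,
        (if i = j then (1 : ℝ) else 0) * (if j = i then 1 else 0) = 1 := by
      intro i
      rw [Finset.sum_eq_single i]
      · simp
      · intro j _ hj
        rw [if_neg hj, mul_zero]
      · simp
    simp only [this, Finset.sum_const, Finset.card_univ, Fintype.card_prod, Fintype.card_fin,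
      Fintype.card_bool, nsmul_eq_mul]
    push_cast; ring
  rw [h1]
  push_cast; ring

theorem scal_add (e : OrthonormalBasis (Fin m × Bool) ℝ V) (R S : V → V → V → V → ℝ) :
    scal e (addT R S) = scal e R + scal e S := by
  unfold scal addT
  simp only [Finset.sum_add_distrib]

end bases

section family

variable {m : ℕ} {K : Type*} [Fintype K]

/-- the terms of the alternating sum -/
noncomputable def TT (ν : K → Fin m × Bool → Fin m × Bool → ℝ) (c : ℝ) (j : ℕ) : ℝ :=
  (m.choose j : ℝ) * ((2 * c) ^ (m - j) * (2 * (m - j)).factorial) * w ν j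

theorem TT_nonneg (ν : K → Fin m × Bool → Fin m × Bool → ℝ) {c : ℝ} (hc : 0 ≤ c) (j : ℕ) :
    0 ≤ TT ν c j := by
  unfold TT
  have := w_nonneg ν j
  positivity

theorem gm_F (ν : K → Fin m × Bool → Fin m × Bool → ℝ) {c : ℝ} (hc : 0 ≤ c) :
    gm (fun _ : Fin m => (fun i j k l => c * unitCurv i j k l - ∑ a, ν a i j * ν a k l : T4 m)) =
      F (TT ν c) m 0 := by
  rw [gm_expand hc, F]
  refine Finset.sum_congr rfl fun j _ => ?_
  rw [zero_add, TT]

theorem TT_zero (ν : K → Fin m × Bool → Fin m × Bool → ℝ) (c : ℝ) :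
    TT ν c 0 = (2 * c) ^ m * (2 * m).factorial := by
  simp [TT, w_zero]

theorem TT_one {ν : K → Fin m × Bool → Fin m × Bool → ℝ} (h : ∀ a i j, ν a j i = - ν a i j)
    (c : ℝ) (hm : 1 ≤ m) : TT ν c 1 * (2 * c * (2 * m - 1)) = tt ν * TT ν c 0 := by
  obtain ⟨k, rfl⟩ := Nat.exists_eq_add_of_le' hm
  rw [TT_zero]
  unfold TT
  rw [w_one h, Nat.choose_one_right, Nat.add_sub_cancel]
  have h3 : (2 * (k + 1)).factorial = (2 * k + 2) * ((2 * k + 1) * (2 * k).factorial) := by
    rw [show 2 * (k + 1) = (2 * k + 1) + 1 by ring, Nat.factorial_succ, Nat.factorial_succ]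
  rw [h3]
  push_cast
  ring

theorem TT_ratio {ν : K → Fin m × Bool → Fin m × Bool → ℝ} (h : BiN ν) {c : ℝ} (hc : 0 ≤ c)
    (ht : tt ν ≤ 2 * c * (2 * m - 1)) : Rt (TT ν c) m := by
  intro j i hji hi
  obtain ⟨k, rfl⟩ := Nat.exists_eq_add_of_le' hi
  have hmj : m - j = k + 1 := by omega
  have hmj' : m - (j + 1) = k := by omega
  have h1 : w ν (j + 1) ≤ 4 * c * (2 * m - 1) * w ν j := by
    refine (w_succ_le h j).trans ?_
    have := w_nonneg ν j
    nlinarith
  unfold TT
  rw [hmj, hmj']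
  have h2 : ((m.choose (j + 1) : ℕ) : ℝ) * (j + 1) = (m.choose j : ℕ) * (k + 1) := by
    have := Nat.choose_succ_right_eq m j
    rw [hmj] at this
    exact_mod_cast this
  have h3 : (2 * (k + 1)).factorial = (2 * k + 2) * ((2 * k + 1) * (2 * k).factorial) := by
    rw [show 2 * (k + 1) = (2 * k + 1) + 1 by ring, Nat.factorial_succ, Nat.factorial_succ]
  rw [h3]
  push_cast
  have h4 : (m.choose (j + 1) : ℝ) * ((2 * c) ^ k * (2 * k).factorial) * w ν (j + 1) *
      ((j + 1) * (2 * (k + 1) - 1)) = ((m.choose j : ℝ) * (k + 1) * (2 * k + 1) *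
        ((2 * c) ^ k * (2 * k).factorial)) * w ν (j + 1) := by
    have : (m.choose (j + 1) : ℝ) * ((2 * c) ^ k * (2 * k).factorial) * w ν (j + 1) *
      ((j + 1) * (2 * (k + 1) - 1)) = ((m.choose (j + 1) : ℝ) * (j + 1)) *
        (((2 * c) ^ k * (2 * k).factorial) * w ν (j + 1) * (2 * (k + 1) - 1)) := by ring
    rw [this, h2]; ring
  rw [h4]
  have h5 : 0 ≤ (m.choose j : ℝ) * (k + 1) * (2 * k + 1) *
        ((2 * c) ^ k * (2 * k).factorial) := by positivity
  refine (mul_le_mul_of_nonneg_left h1 h5).trans (le_of_eq ?_)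
  ring

theorem gm_ge {ν : K → Fin m × Bool → Fin m × Bool → ℝ} (h : BiN ν) {c : ℝ} (hc : 0 ≤ c)
    (hm : 1 ≤ m) (ht : tt ν ≤ 2 * c * (2 * m - 1)) (hr : ∀ j l, j ≠ l → rc ν j l = 0) :
    TT ν c 0 - TT ν c 1 ≤ gm (fun _ : Fin m => (fun i j k l =>
      c * unitCurv i j k l - ∑ a, ν a i j * ν a k l : T4 m)) := by
  rw [gm_F ν hc]
  have h0 := TT_nonneg ν hc
  rcases Nat.lt_or_ge m 2 with h1 | h1
  · have hm1 : m = 1 := by omega
    subst hm1
    rw [F_succ, F_zero]
  · rw [F_split _ h1]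
    have h2 : 0 ≤ F (TT ν c) (m - 2) 2 := by
      rcases Nat.lt_or_ge m 4 with h3 | h3
      · rcases Nat.lt_or_ge m 3 with h4 | h4
        · have hm2 : m = 2 := by omega
          subst hm2
          rw [F_zero]
          exact h0 2
        · have hm3 : m = 3 := by omega
          subst hm3
          rw [show 3 - 2 = 0 + 1 by norm_num, F_succ, F_zero]
          have h5 := w_three_diag h hr (by simp)
          have h6 : w ν 3 ≤ 12 * c * w ν 2 := by
            refine h5.trans ?_
            have := w_nonneg ν 2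
            push_cast at ht
            have h7 : 6 / 5 * tt ν ≤ 12 * c := by linarith
            exact mul_le_mul_of_nonneg_right h7 this
          have e2 : TT ν c 2 = 12 * c * w ν 2 := by
            show ((3 : ℕ) : ℝ) * ((2 * c) ^ 1 * ((2 : ℕ) : ℝ)) * w ν 2 = _
            push_cast
            ring
          have e3 : TT ν c (2 + 1) = w ν 3 := by
            unfold TT
            simp
          rw [e2, e3]
          linarith
      · exact F_nonneg h0 (TT_ratio h hc ht) h3
    linarith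

end family

section pointwise

variable {m : ℕ} {V : Type} [NormedAddCommGroup V] [InnerProductSpace ℝ V]

/-- reduction to families of two-forms -/
theorem reduce (e : OrthonormalBasis (Fin m × Bool) ℝ V) {R : V → V → V → V → ℝ}
    (hR : AlgCurv R) {c : ℝ} (h : OpNonneg (addT R fun x y z w => c * unitT x y z w)) :
    ∃ (n : ℕ) (ν : Fin n → Fin m × Bool → Fin m × Bool → ℝ), BiN ν ∧
      (∀ j l, j ≠ l → rc ν j l = 0) ∧ tt ν = scal e R + c * (2 * m * (2 * m - 1)) ∧
      (-1) ^ m * gbc e R = 1 / ((8 * Real.pi) ^ m * m.factorial) *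
        gm (fun _ : Fin m => (fun i j k l =>
          c * unitCurv i j k l - ∑ a, ν a i j * ν a k l : T4 m)) := by
  set E : V → V → V → V → ℝ := addT R fun x y z w => c * unitT x y z w with hEdef
  have hE : AlgCurv E := add_curv hR (unit_curv c)
  obtain ⟨e', he⟩ := exists_ricci_basis e hE
  have hB : BiForm E := ⟨hE.add, hE.smul, hE.anti, hE.pair⟩
  obtain ⟨n, ν, hν, hEν⟩ := hB.squares (fun i => e' i) h
  have hEE : ∀ i j k l, EE ν i j k l = E (e' i) (e' j) (e' k) (e' l) := fun i j k l =>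
    (hEν i j k l).symm
  refine ⟨n, ν, ⟨hν, ?_⟩, ?_, ?_, ?_⟩
  · intro i j k l
    rw [hEE, hEE, hEE]
    exact hE.bianchi _ _ _ _
  · intro j l hjl
    unfold rc
    simp only [hEE]
    exact he j l hjl
  · have h1 : tt ν = scal e' E := by
      unfold tt scal
      simp only [hEE]
    rw [h1, ← scal_basis e e' hE, hEdef, scal_add, scal_unit]
  · rw [Pool.Agent.W688.HD.bas m V e e' R hR, gbc_eq]
    congr 2
    funext _ i j k l
    have h2 := hEν i j k l
    rw [← h2, hEdef, ← cp_unit e']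
    simp only [cp, negT, addT]
    ring

/-- **The pointwise inequality.** -/
theorem point (e : OrthonormalBasis (Fin m × Bool) ℝ V) {R : V → V → V → V → ℝ}
    (hR : AlgCurv R) {c : ℝ} (hc : 0 < c)
    (h : OpNonneg (addT R fun x y z w => c * unitT x y z w))
    (hs : scal e R ≤ -(c * ((2 * m - 1) * (2 * m - 2)))) :
    roundGB m c * (-(scal e R) - c * ((2 * m - 1) * (2 * m - 2))) ≤
      2 * c * (2 * m - 1) * ((-1) ^ m * gbc e R) := by
  have hm : 1 ≤ m := by
    by_contra hm0
    have hm1 : m = 0 := by omega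
    subst hm1
    have h1 : scal e R = 0 := by
      unfold scal
      simp
    rw [h1] at hs
    norm_num at hs
    linarith
  obtain ⟨n, ν, hν, hr, ht, hg⟩ := reduce e hR h
  have hmR : (1 : ℝ) ≤ m := by exact_mod_cast hm
  have ht2 : tt ν ≤ 2 * c * (2 * m - 1) := by
    rw [ht]
    nlinarith
  have h1 := gm_ge hν hc.le hm ht2 hr
  have h2 := TT_one hν.anti c hm
  have hπ := Real.pi_pos
  have hC : 0 < 1 / ((8 * Real.pi) ^ m * (m.factorial : ℝ)) := by positivity
  have hround : roundGB m c = 1 / ((8 * Real.pi) ^ m * m.factorial) * TT ν c 0 := by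
    rw [TT_zero]
    unfold roundGB
    have : (8 * Real.pi) ^ m = 2 ^ m * (4 * Real.pi) ^ m := by
      rw [← mul_pow]; congr 1; ring
    rw [this, mul_pow 2 c m]
    field_simp
  have h3 : -(scal e R) - c * ((2 * m - 1) * (2 * m - 2)) = 2 * c * (2 * m - 1) - tt ν := by
    rw [ht]; ring
  rw [hg, hround, h3]
  have h4 : (1 / ((8 * Real.pi) ^ m * (m.factorial : ℝ))) *
      (2 * c * (2 * m - 1) * (TT ν c 0 - TT ν c 1)) ≤
      (1 / ((8 * Real.pi) ^ m * (m.factorial : ℝ))) * (2 * c * (2 * m - 1) *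
        gm (fun _ : Fin m => (fun i j k l =>
          c * unitCurv i j k l - ∑ a, ν a i j * ν a k l : T4 m))) := by
    refine mul_le_mul_of_nonneg_left (mul_le_mul_of_nonneg_left h1 ?_) hC.le
    have : 0 ≤ 2 * (m : ℝ) - 1 := by linarith
    positivity
  have h5 : 2 * c * (2 * m - 1) * (TT ν c 0 - TT ν c 1) =
      TT ν c 0 * (2 * c * (2 * m - 1) - tt ν) := by
    linear_combination -h2
  rw [h5] at h4
  calc 1 / ((8 * Real.pi) ^ m * (m.factorial : ℝ)) * TT ν c 0 * (2 * c * (2 * m - 1) - tt ν)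
      = (1 / ((8 * Real.pi) ^ m * (m.factorial : ℝ))) *
        (TT ν c 0 * (2 * c * (2 * m - 1) - tt ν)) := by ring
    _ ≤ _ := h4
    _ = _ := by ring

end pointwise

end Pool.Agent.TH594.HP
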