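import Mathlib

/-!
# An alternating sum
-/

set_option autoImplicit false

namespace Pool.Agent.TH594.HP

open Finset

/-- alternating sum -/
def F (T : ℕ → ℝ) (n k : ℕ) : ℝ := ∑ j ∈ range (n + 1), (-1) ^ j * T (k + j)

theorem F_zero (T : ℕ → ℝ) (k : ℕ) : F T 0 k = T k := by simp [F]

theorem F_succ (T : ℕ → ℝ) (n k : ℕ) : F T (n + 1) k = T k - F T n (k + 1) := by
  unfold F
  rw [Finset.sum_range_succ']
  have h1 : ∑ j ∈ range (n + 1), (-1 : ℝ) ^ (j + 1) * T (k + (j + 1)) =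
      - ∑ j ∈ range (n + 1), (-1) ^ j * T (k + 1 + j) := by
    rw [← Finset.sum_neg_distrib]
    refine Finset.sum_congr rfl fun j _ => ?_
    rw [pow_succ, show k + (j + 1) = k + 1 + j by ring]; ring
  rw [h1]
  simp
  ring

section

variable {T : ℕ → ℝ} {m : ℕ}

/-- ratio condition -/
def Rt (T : ℕ → ℝ) (m : ℕ) : Prop :=
  ∀ j i : ℕ, j + i = m → 1 ≤ i →
    T (j + 1) * (((j : ℝ) + 1) * (2 * i - 1)) ≤ (2 * m - 1) * T j

theorem step_le (h0 : ∀ j, 0 ≤ T j) (hr : Rt T m) (k i : ℕ) (hk : k + i = m) (hi : 2 ≤ i)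
    (hk2 : 2 ≤ k) (hm : 4 ≤ m) : T (k + 1) ≤ T k := by
  have h1 := hr k i hk (by omega)
  have hkR : (2 : ℝ) ≤ k := by exact_mod_cast hk2
  have hiR : (2 : ℝ) ≤ i := by exact_mod_cast hi
  have hmR : (k : ℝ) + i = m := by exact_mod_cast hk
  have h2 : (2 * m - 1 : ℝ) ≤ (((k : ℝ) + 1) * (2 * i - 1)) := by
    rw [← hmR]
    nlinarith [mul_nonneg (sub_nonneg.2 hkR) (sub_nonneg.2 hiR)]
  have h3 : 0 < (2 * m - 1 : ℝ) := by rw [← hmR]; linarith
  have h4 : T (k + 1) * (2 * m - 1) ≤ (2 * m - 1) * T k :=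
    (mul_le_mul_of_nonneg_left h2 (h0 _)).trans h1
  nlinarith

theorem F_two (h0 : ∀ j, 0 ≤ T j) (hr : Rt T m) (k : ℕ) (hk : k + 2 = m) (hm : 4 ≤ m) :
    0 ≤ F T 2 k ∧ F T 2 k ≤ T k * (1 + (2 * m - 1) / (3 * m)) := by
  have hmR : (k : ℝ) + 2 = m := by exact_mod_cast hk
  have hkR : (2 : ℝ) ≤ k := by exact_mod_cast (by omega : 2 ≤ k)
  have hm0 : (0 : ℝ) < m := by linarith
  have h1 := step_le h0 hr k 2 hk le_rfl (by omega) hm
  have h2 := hr (k + 1) 1 (by omega) le_rfl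
  have h3 := hr k 2 hk (by omega)
  rw [F_succ, F_succ, F_zero]
  push_cast at h2 h3
  have e1 : (k : ℝ) + 1 + 1 = m := by linarith
  have e2 : (k : ℝ) + 1 = m - 1 := by linarith
  rw [e1] at h2
  rw [e2] at h3
  have t1 := h0 (k + 1)
  have t2 := h0 (k + 1 + 1)
  have t3 := h0 k
  refine ⟨by linarith, ?_⟩
  -- `T (k+2) ≤ (2m-1)/m T(k+1)`
  have h4 : T (k + 1 + 1) * m ≤ (2 * m - 1) * T (k + 1) := by nlinarith
  have h5 : T (k + 1) * ((m - 1) * 3) ≤ (2 * m - 1) * T k := by nlinarith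
  have h6 : (T k - (T (k + 1) - T (k + 1 + 1))) * (3 * m) ≤
      T k * (1 + (2 * m - 1) / (3 * m)) * (3 * m) := by
    have e3 : T k * (1 + (2 * m - 1) / (3 * m)) * (3 * m) = T k * (3 * m + (2 * m - 1)) := by
      field_simp
    rw [e3]
    nlinarith
  exact le_of_mul_le_mul_right h6 (by positivity)

theorem F_three (h0 : ∀ j, 0 ≤ T j) (hr : Rt T m) (k : ℕ) (hk : k + 3 = m) (hm : 5 ≤ m) :
    0 ≤ F T 3 k ∧ F T 3 k ≤ T k := by
  have hmR : (k : ℝ) + 3 = m := by exact_mod_cast hk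
  have hkR : (2 : ℝ) ≤ k := by exact_mod_cast (by omega : 2 ≤ k)
  have hm0 : (0 : ℝ) < m := by linarith
  obtain ⟨h1, h2⟩ := F_two h0 hr (k + 1) (by omega) (by omega)
  rw [F_succ]
  refine ⟨?_, by linarith⟩
  have h3 := hr k 3 hk (by omega)
  push_cast at h3
  have e2 : (k : ℝ) + 1 = m - 2 := by linarith
  rw [e2] at h3
  have t1 := h0 (k + 1)
  have t3 := h0 k
  have hm5 : (5 : ℝ) ≤ m := by exact_mod_cast hm
  have h4 : T (k + 1) * ((m - 2) * 5) ≤ (2 * m - 1) * T k := by nlinarith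
  have h5 : T (k + 1) * (1 + (2 * m - 1) / (3 * m)) ≤ T k := by
    have e3 : T (k + 1) * (1 + (2 * m - 1) / (3 * m)) * (3 * m) = T (k + 1) * (5 * m - 1) := by
      field_simp; ring
    have h6 : T (k + 1) * (5 * m - 1) ≤ T k * (3 * m) := by
      have h7 : T (k + 1) * ((m - 2) * 5) * (5 * m - 1) ≤ (2 * m - 1) * T k * (5 * m - 1) :=
        mul_le_mul_of_nonneg_right h4 (by linarith)
      have h8 : (2 * m - 1) * T k * (5 * m - 1) ≤ T k * (3 * m) * ((m - 2) * 5) := by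
        have : (2 * m - 1 : ℝ) * (5 * m - 1) ≤ (3 * m) * ((m - 2) * 5) := by nlinarith
        nlinarith
      have h9 : T (k + 1) * (5 * m - 1) * ((m - 2) * 5) ≤ T k * (3 * m) * ((m - 2) * 5) := by
        linarith
      exact le_of_mul_le_mul_right h9 (by nlinarith)
    rw [← e3] at h6
    exact le_of_mul_le_mul_right h6 (by positivity)
  linarith

theorem F_ge (h0 : ∀ j, 0 ≤ T j) (hr : Rt T m) (hm : 5 ≤ m) : ∀ (n k : ℕ), k + (n + 3) = m →
    2 ≤ k → 0 ≤ F T (n + 3) k ∧ F T (n + 3) k ≤ T k := by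
  intro n
  induction n with
  | zero =>
    intro k hk _
    exact F_three h0 hr k (by omega) hm
  | succ n ih =>
    intro k hk hk2
    obtain ⟨h1, h2⟩ := ih (k + 1) (by omega) (by omega)
    have h3 := step_le h0 hr k (n + 1 + 3) (by omega) (by omega) hk2 (by omega)
    rw [show n + 1 + 3 = (n + 3) + 1 by ring, F_succ]
    exact ⟨by linarith, by linarith⟩

theorem F_nonneg (h0 : ∀ j, 0 ≤ T j) (hr : Rt T m) (hm : 4 ≤ m) : 0 ≤ F T (m - 2) 2 := by
  rcases Nat.lt_or_ge m 5 with h | h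
  · have hm4 : m = 4 := by omega
    subst hm4
    exact (F_two h0 hr 2 rfl le_rfl).1
  · obtain ⟨n, rfl⟩ := Nat.exists_eq_add_of_le h
    have := (F_ge h0 hr h n 2 (by omega) le_rfl).1
    rw [show 5 + n - 2 = n + 3 by omega]
    exact this

theorem F_split (T : ℕ → ℝ) (hm : 2 ≤ m) : F T m 0 = T 0 - T 1 + F T (m - 2) 2 := by
  obtain ⟨n, rfl⟩ := Nat.exists_eq_add_of_le hm
  rw [show 2 + n = (n + 1) + 1 by ring, F_succ, F_succ, show (n + 1 + 1) - 2 = n by omega]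
  ring

end

end Pool.Agent.TH594.HP
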