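import Pool.Agent.TH594.HP.Gmx

/-!
# Expansion of the Gauss-Bonnet-Chern sum of `δ - E`
-/

set_option autoImplicit false

namespace Pool.Agent.TH594.HP

open Finset
open Pool.Agent.W666.GB (unitCurv)
open Pool.Agent.W669.HD (T4 gm ur unit_squares)

section general

variable {J : Type*} [Fintype J] [DecidableEq J] {K : Type*} [Fintype K]

/-- the operator of a family without signs -/
noncomputable def O1 (ν : K → J → J → ℝ) : Module.End ℝ (Fk J → ℝ) := Op (fun _ => 1) ν

theorem O1_apply (ν : K → J → J → ℝ) (V : Fk J → ℝ) (f : Fk J) :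
    O1 ν V f = ∑ a, V (L (ν a) f) := by
  rw [O1, Op_apply]
  exact Finset.sum_congr rfl fun a _ => one_mul _

theorem O1_nn (ν : K → J → J → ℝ) (f : Fk J) : O1 ν nn f = Ls ν f := O1_apply ν nn f

theorem Op_neg (ν : K → J → J → ℝ) (j : ℕ) (V : Fk J → ℝ) (f : Fk J) :
    ((Op (fun _ => -1) ν) ^ j) V f = (-1) ^ j * ((O1 ν) ^ j) V f := by
  rw [O1, Op_pow, Op_pow, Finset.mul_sum]
  refine Finset.sum_congr rfl fun a _ => ?_
  simp

theorem O1_congr (ν : K → J → J → ℝ) (j : ℕ) : ∀ (d : ℕ) (V W : Fk J → ℝ) (κ : ℝ),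
    (∀ f, Dg (d + 2 * j) f → V f = κ * W f) → ∀ f, Dg d f →
      ((O1 ν) ^ j) V f = κ * ((O1 ν) ^ j) W f := by
  induction j with
  | zero =>
    intro d V W κ h f hf
    simpa using h f hf
  | succ j ih =>
    intro d V W κ h f hf
    rw [pow_succ, Module.End.mul_apply, Module.End.mul_apply]
    refine ih d (O1 ν V) (O1 ν W) κ ?_ f hf
    intro g hg
    rw [O1_apply, O1_apply, Finset.mul_sum]
    refine Finset.sum_congr rfl fun a _ => h _ ?_
    have : d + 2 * (j + 1) = d + 2 * j + 2 := by ring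
    rw [this]
    exact Dg_L hg _

theorem O1_mono (ν : K → J → J → ℝ) (j : ℕ) (V W : Fk J → ℝ) (h : ∀ f, V f ≤ W f) (f : Fk J) :
    ((O1 ν) ^ j) V f ≤ ((O1 ν) ^ j) W f := by
  rw [O1, Op_pow, Op_pow]
  refine Finset.sum_le_sum fun a _ => ?_
  simp only [Finset.prod_const_one, one_mul]
  exact h _

/-- the traces of the exterior powers -/
noncomputable def w (ν : K → J → J → ℝ) (j : ℕ) : ℝ := ((O1 ν) ^ j) nn vac

theorem w_nonneg (ν : K → J → J → ℝ) (j : ℕ) : 0 ≤ w ν j := by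
  have h := O1_mono ν j 0 nn (fun f => nn_nonneg f) vac
  rw [map_zero] at h
  exact h

theorem w_zero (ν : K → J → J → ℝ) : w ν 0 = 1 := by
  simp [w, nn_vac]

theorem w_one {ν : K → J → J → ℝ} (h : ∀ a i j, ν a j i = - ν a i j) : w ν 1 = 2 * tt ν := by
  unfold w
  rw [pow_one, O1_nn, Ls_eq h]
  have h1 : Rn ν (vac : Fk J) = 0 := by
    unfold Rn
    simp [an_vac, ip_zero_left]
  have h2 : An ν (vac : Fk J) = 0 := by
    unfold An
    simp [an_vac, nn, ip_zero_left]
  rw [h1, h2, nn_vac]; ring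

theorem w_succ_le {ν : K → J → J → ℝ} (h : BiN ν) (j : ℕ) : w ν (j + 1) ≤ 2 * tt ν * w ν j := by
  unfold w
  rw [pow_succ, Module.End.mul_apply]
  have h1 := O1_mono ν j (O1 ν nn) ((2 * tt ν) • nn) (fun f => by
    rw [O1_nn, Pi.smul_apply, smul_eq_mul]
    exact Ls_le' h f) vac
  rw [map_smul, Pi.smul_apply, smul_eq_mul] at h1
  exact h1

end general

variable {m : ℕ}

theorem L_ur (δ : ℝ) (p : (Fin m × Bool) × (Fin m × Bool)) (f : Fk (Fin m × Bool)) :
    L (ur δ p) f = (2 * Real.sqrt (δ / 2)) • cr p.1 (cr p.2 f) := by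
  rw [L_apply]
  have h1 : ∀ i j : Fin m × Bool, ur δ p i j • cr i (cr j f) =
      Real.sqrt (δ / 2) • ((if i = p.1 then (if j = p.2 then cr i (cr j f) else 0) else 0) -
        (if i = p.2 then (if j = p.1 then cr i (cr j f) else 0) else 0)) := by
    intro i j
    unfold ur
    rw [mul_smul]
    congr 1
    split_ifs <;> simp
  simp only [h1, ← Finset.smul_sum, Finset.sum_sub_distrib]
  have h2 : ∀ a b : Fin m × Bool, ∑ i : Fin m × Bool, ∑ j : Fin m × Bool,
      (if i = a then (if j = b then cr i (cr j f) else 0) else 0) = cr a (cr b f) := by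
    intro a b
    rw [Finset.sum_eq_single a]
    · simp
    · intro i _ hi
      simp [hi]
    · simp
  rw [h2, h2, cr_cr p.2 p.1, sub_neg_eq_add, ← two_smul ℝ, smul_smul, mul_comm]

theorem U_step {δ : ℝ} (hδ : 0 ≤ δ) {d : ℕ} {f : Fk (Fin m × Bool)} (h : Dg d f) :
    ∑ p, nn (L (ur δ p) f) = 2 * δ * ((2 * m - d) * (2 * m - d - 1)) * nn f := by
  have hc : (Fintype.card (Fin m × Bool) : ℝ) = 2 * m := by
    rw [Fintype.card_prod, Fintype.card_fin, Fintype.card_bool]; push_cast; ring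
  have hs : (2 * Real.sqrt (δ / 2)) ^ 2 = 2 * δ := by
    rw [mul_pow, Real.sq_sqrt (by positivity)]; ring
  simp only [L_ur, nn_smul, hs]
  rw [← Finset.mul_sum, Fintype.sum_prod_type_right]
  have h1 : ∀ q : Fin m × Bool, ∑ i, nn (cr (i, q).1 (cr (i, q).2 f)) =
      (2 * m - (d + 1)) * nn (cr q f) := by
    intro q
    have := sum_nn_cr (Dg_cr h q)
    rw [hc] at this
    push_cast at this
    exact this
  simp only [h1]
  rw [← Finset.mul_sum, sum_nn_cr h, hc]
  ring

theorem U_pow {δ : ℝ} (hδ : 0 ≤ δ) (k : ℕ) : ∀ (d : ℕ) (f : Fk (Fin m × Bool)), Dg d f →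
    d + 2 * k = 2 * m → ((O1 (ur δ)) ^ k) nn f = ((2 * δ) ^ k * (2 * k).factorial) * nn f := by
  induction k with
  | zero =>
    intro d f _ _
    simp
  | succ k ih =>
    intro d f hf hd
    rw [pow_succ', Module.End.mul_apply, O1_apply]
    have h1 : ∀ p : (Fin m × Bool) × (Fin m × Bool), ((O1 (ur δ)) ^ k) nn (L (ur δ p) f) =
        ((2 * δ) ^ k * (2 * k).factorial) * nn (L (ur δ p) f) := fun p =>
      ih (d + 2) _ (Dg_L hf _) (by omega)
    simp only [h1]
    rw [← Finset.mul_sum, U_step hδ hf]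
    have h2 : (2 * m : ℝ) - d = 2 * k + 2 := by
      have : (d : ℝ) + 2 * (k + 1) = 2 * m := by exact_mod_cast hd
      linarith
    rw [h2]
    have h3 : (2 * (k + 1)).factorial = (2 * k + 2) * ((2 * k + 1) * (2 * k).factorial) := by
      rw [show 2 * (k + 1) = (2 * k + 1) + 1 by ring, Nat.factorial_succ, Nat.factorial_succ]
    rw [h3]
    push_cast
    ring

/-- expansion of the Gauss-Bonnet-Chern sum -/
theorem gm_expand {δ : ℝ} (hδ : 0 ≤ δ) {K : Type*} [Fintype K]
    (ν : K → Fin m × Bool → Fin m × Bool → ℝ) :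
    gm (fun _ : Fin m => (fun i j k l => δ * unitCurv i j k l - ∑ a, ν a i j * ν a k l : T4 m)) =
      ∑ j ∈ range (m + 1), (-1) ^ j * ((m.choose j : ℝ) * ((2 * δ) ^ (m - j) *
        (2 * (m - j)).factorial) * w ν j) := by
  rw [gm_op (K := ((Fin m × Bool) × (Fin m × Bool)) ⊕ K) (Sum.elim (fun _ => 1) (fun _ => -1))
    (Sum.elim (ur δ) ν)]
  · have h1 : Op (Sum.elim (fun _ : (Fin m × Bool) × (Fin m × Bool) => (1 : ℝ)) (fun _ : K => -1))
        (Sum.elim (ur δ) ν) = Op (fun _ => -1) ν + O1 (ur δ) := by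
      apply LinearMap.ext
      intro V
      funext f
      rw [LinearMap.add_apply, Pi.add_apply, Op_apply, Op_apply, O1_apply, Fintype.sum_sum_type,
        add_comm]
      simp
    have h2 : Commute (Op (fun _ : K => (-1 : ℝ)) ν) (O1 (ur (m := m) δ)) := Op_comm _ _ _ _
    rw [h1, h2.add_pow, LinearMap.sum_apply, Finset.sum_apply]
    refine Finset.sum_congr rfl fun j hj => ?_
    have hj' : j ≤ m := Nat.lt_succ_iff.mp (Finset.mem_range.mp hj)
    rw [Module.End.mul_apply, Module.End.mul_apply]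
    have h3 : ((m.choose j : ℕ) : Module.End ℝ (Fk (Fin m × Bool) → ℝ)) nn =
        (m.choose j : ℝ) • nn := by
      rw [Module.End.natCast_apply, Nat.cast_smul_eq_nsmul]
    rw [h3, map_smul, map_smul, Pi.smul_apply, smul_eq_mul, Op_neg]
    have h4 := O1_congr ν j 0 (((O1 (ur (m := m) δ)) ^ (m - j)) nn) nn
      ((2 * δ) ^ (m - j) * (2 * (m - j)).factorial) (fun f hf =>
        U_pow hδ (m - j) _ f hf (by omega)) vac Dg_vac
    rw [h4, w]
    ring
  · intro i j k l
    rw [Fintype.sum_sum_type, unit_squares hδ]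
    simp only [Sum.elim_inl, Sum.elim_inr, one_mul, neg_mul, Finset.sum_neg_distrib]
    ring

end Pool.Agent.TH594.HP
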