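import Mathlib

/-!
# Creation and annihilation operators on the functions on finite sets

The functions `Finset J → ℝ` are the exterior algebra of `ℝ^J` with its Euclidean structure; `cr i` is the
exterior product with the basis vector `i` from the left and `an i` is the adjoint.
-/

set_option autoImplicit false

namespace Pool.Agent.TH594.HP

open Finset

variable {J : Type*} [Fintype J] [DecidableEq J]

/-- position of an index in some enumeration -/
noncomputable def pos (i : J) : ℕ := (Fintype.equivFin J i : ℕ)

omit [DecidableEq J] in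
theorem pos_inj {i j : J} (h : pos i = pos j) : i = j :=
  (Fintype.equivFin J).injective (Fin.ext h)

/-- sign of moving `i` to its place in `S` -/
noncomputable def sg (i : J) (S : Finset J) : ℝ := (-1) ^ (S.filter (fun k => pos k < pos i)).card

theorem sg_sq (i : J) (S : Finset J) : sg i S * sg i S = 1 := by
  unfold sg
  rw [← pow_add, ← two_mul, pow_mul]
  norm_num

/-- the sign of the pair -/
noncomputable def ch (i j : J) : ℝ := if pos i < pos j then -1 else 1

omit [DecidableEq J] in
theorem ch_self (i : J) : ch i i = 1 := by simp [ch]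

omit [DecidableEq J] in
theorem ch_add {i j : J} (h : i ≠ j) : ch i j + ch j i = 0 := by
  unfold ch
  rcases lt_trichotomy (pos i) (pos j) with h1 | h1 | h1
  · rw [if_pos h1, if_neg (by omega)]; norm_num
  · exact absurd (pos_inj h1) h
  · rw [if_neg (by omega), if_pos h1]; norm_num

omit [DecidableEq J] in
theorem ch_sq (i j : J) : ch i j * ch i j = 1 := by
  unfold ch
  split_ifs <;> norm_num

theorem sg_erase {i : J} (j : J) {S : Finset J} (h : i ∈ S) :
    sg j (S.erase i) = sg j S * ch i j := by
  unfold sg ch
  rw [Finset.filter_erase]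
  split_ifs with h1
  · have hm : i ∈ S.filter (fun k => pos k < pos j) := Finset.mem_filter.2 ⟨h, h1⟩
    rw [← Finset.card_erase_add_one hm, pow_succ]
    ring
  · rw [Finset.erase_eq_of_notMem, mul_one]
    intro hm
    exact h1 (Finset.mem_filter.1 hm).2

theorem sg_insert {i : J} (j : J) {S : Finset J} (h : i ∉ S) :
    sg j (insert i S) = sg j S * ch i j := by
  have h1 := sg_erase j (Finset.mem_insert_self i S)
  rw [Finset.erase_insert h] at h1
  rw [h1, mul_assoc, ch_sq, mul_one]

/-- forms -/
abbrev Fk (J : Type*) := Finset J → ℝ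

/-- creation operator -/
noncomputable def cr (i : J) : Fk J →ₗ[ℝ] Fk J where
  toFun f S := if i ∈ S then sg i S * f (S.erase i) else 0
  map_add' f g := by
    funext S
    simp only [Pi.add_apply]
    split_ifs <;> ring
  map_smul' t f := by
    funext S
    simp only [Pi.smul_apply, smul_eq_mul, RingHom.id_apply]
    split_ifs <;> ring

/-- annihilation operator -/
noncomputable def an (i : J) : Fk J →ₗ[ℝ] Fk J where
  toFun f S := if i ∈ S then 0 else sg i S * f (insert i S)
  map_add' f g := by
    funext S
    simp only [Pi.add_apply]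
    split_ifs <;> ring
  map_smul' t f := by
    funext S
    simp only [Pi.smul_apply, smul_eq_mul, RingHom.id_apply]
    split_ifs <;> ring

theorem cr_apply (i : J) (f : Fk J) (S : Finset J) :
    cr i f S = if i ∈ S then sg i S * f (S.erase i) else 0 := rfl

theorem an_apply (i : J) (f : Fk J) (S : Finset J) :
    an i f S = if i ∈ S then 0 else sg i S * f (insert i S) := rfl

theorem cr_cr (i j : J) (f : Fk J) : cr i (cr j f) = - cr j (cr i f) := by
  funext S
  rw [Pi.neg_apply]
  by_cases hij : i = j
  · subst hij
    simp [cr_apply]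
  simp only [cr_apply]
  by_cases hi : i ∈ S
  · by_cases hj : j ∈ S
    · have h1 : j ∈ S.erase i := Finset.mem_erase.2 ⟨fun h => hij h.symm, hj⟩
      have h2 : i ∈ S.erase j := Finset.mem_erase.2 ⟨hij, hi⟩
      rw [if_pos hi, if_pos h1, if_pos hj, if_pos h2, sg_erase j hi, sg_erase i hj,
        Finset.erase_right_comm]
      have h3 := ch_add hij
      linear_combination (sg i S * sg j S * f ((S.erase j).erase i)) * h3
    · have h1 : j ∉ S.erase i := fun h => hj (Finset.mem_of_mem_erase h)
      rw [if_pos hi, if_neg h1, if_neg hj]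
      simp
  · by_cases hj : j ∈ S
    · have h1 : i ∉ S.erase j := fun h => hi (Finset.mem_of_mem_erase h)
      rw [if_neg hi, if_pos hj, if_neg h1]
      simp
    · rw [if_neg hi, if_neg hj]
      simp

theorem an_an (i j : J) (f : Fk J) : an i (an j f) = - an j (an i f) := by
  funext S
  rw [Pi.neg_apply]
  by_cases hij : i = j
  · subst hij
    simp [an_apply]
  simp only [an_apply]
  by_cases hi : i ∈ S
  · by_cases hj : j ∈ S
    · rw [if_pos hi, if_pos hj]
      simp
    · have h1 : i ∈ insert j S := Finset.mem_insert_of_mem hi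
      rw [if_pos hi, if_neg hj, if_pos h1]
      simp
  · by_cases hj : j ∈ S
    · have h1 : j ∈ insert i S := Finset.mem_insert_of_mem hj
      rw [if_neg hi, if_pos h1, if_pos hj]
      simp
    · have h1 : j ∉ insert i S := by
        rw [Finset.mem_insert]; push Not; exact ⟨fun h => hij h.symm, hj⟩
      have h2 : i ∉ insert j S := by
        rw [Finset.mem_insert]; push Not; exact ⟨hij, hi⟩
      rw [if_neg hi, if_neg h1, if_neg hj, if_neg h2, sg_insert j hi, sg_insert i hj,
        Finset.insert_comm]
      have h3 := ch_add hij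
      linear_combination (sg i S * sg j S * f (insert i (insert j S))) * h3

theorem an_cr (i j : J) (f : Fk J) :
    an i (cr j f) = (if i = j then f else 0) - cr j (an i f) := by
  funext S
  rw [Pi.sub_apply]
  by_cases hij : i = j
  · subst hij
    rw [if_pos rfl]
    simp only [cr_apply, an_apply]
    by_cases hi : i ∈ S
    · rw [if_pos hi, if_pos hi, if_neg (Finset.notMem_erase i S), Finset.insert_erase hi,
        sg_erase i hi, ch_self]
      have := sg_sq i S
      linear_combination f S * this
    · rw [if_neg hi, if_neg hi, if_pos (Finset.mem_insert_self i S), Finset.erase_insert hi,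
        sg_insert i hi, ch_self]
      have := sg_sq i S
      linear_combination f S * this
  rw [if_neg hij, Pi.zero_apply, zero_sub]
  simp only [cr_apply, an_apply]
  by_cases hi : i ∈ S
  · by_cases hj : j ∈ S
    · have h2 : i ∈ S.erase j := Finset.mem_erase.2 ⟨hij, hi⟩
      rw [if_pos hi, if_pos hj, if_pos h2]
      simp
    · rw [if_pos hi, if_neg hj, neg_zero]
  · by_cases hj : j ∈ S
    · have h1 : j ∈ insert i S := Finset.mem_insert_of_mem hj
      have h2 : i ∉ S.erase j := fun h => hi (Finset.mem_of_mem_erase h)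
      have h4 : (insert i S).erase j = insert i (S.erase j) := by
        rw [Finset.erase_insert_of_ne hij]
      rw [if_neg hi, if_pos h1, if_pos hj, if_neg h2, sg_insert j hi, sg_erase i hj, h4]
      have h3 := ch_add hij
      linear_combination (sg i S * sg j S * f (insert i (S.erase j))) * h3
    · have h1 : j ∉ insert i S := by
        rw [Finset.mem_insert]; push Not; exact ⟨fun h => hij h.symm, hj⟩
      rw [if_neg hi, if_neg h1, if_neg hj]
      simp

/-- inner product -/
def ip (f g : Fk J) : ℝ := ∑ S, f S * g S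

theorem ip_comm (f g : Fk J) : ip f g = ip g f := by
  unfold ip
  exact Finset.sum_congr rfl fun S _ => mul_comm _ _

theorem ip_add_left (f f' g : Fk J) : ip (f + f') g = ip f g + ip f' g := by
  unfold ip
  rw [← Finset.sum_add_distrib]
  exact Finset.sum_congr rfl fun S _ => by rw [Pi.add_apply]; ring

theorem ip_add_right (f g g' : Fk J) : ip f (g + g') = ip f g + ip f g' := by
  rw [ip_comm, ip_add_left, ip_comm g, ip_comm g']

theorem ip_smul_left (t : ℝ) (f g : Fk J) : ip (t • f) g = t * ip f g := by
  unfold ip
  rw [Finset.mul_sum]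
  exact Finset.sum_congr rfl fun S _ => by rw [Pi.smul_apply, smul_eq_mul]; ring

theorem ip_smul_right (t : ℝ) (f g : Fk J) : ip f (t • g) = t * ip f g := by
  rw [ip_comm, ip_smul_left, ip_comm]

theorem ip_neg_left (f g : Fk J) : ip (-f) g = - ip f g := by
  rw [← neg_one_smul ℝ f, ip_smul_left]; ring

theorem ip_neg_right (f g : Fk J) : ip f (-g) = - ip f g := by
  rw [ip_comm, ip_neg_left, ip_comm]

theorem ip_sub_left (f f' g : Fk J) : ip (f - f') g = ip f g - ip f' g := by
  rw [sub_eq_add_neg, ip_add_left, ip_neg_left]; ring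

theorem ip_sub_right (f g g' : Fk J) : ip f (g - g') = ip f g - ip f g' := by
  rw [sub_eq_add_neg, ip_add_right, ip_neg_right]; ring

theorem ip_zero_left (g : Fk J) : ip 0 g = 0 := by
  simp [ip]

theorem ip_zero_right (g : Fk J) : ip g 0 = 0 := by
  simp [ip]

theorem ip_sum_left {K : Type*} (s : Finset K) (f : K → Fk J) (g : Fk J) :
    ip (∑ a ∈ s, f a) g = ∑ a ∈ s, ip (f a) g := by
  classical
  induction s using Finset.induction_on with
  | empty => simp [ip_zero_left]
  | insert a s ha ih => rw [Finset.sum_insert ha, Finset.sum_insert ha, ip_add_left, ih]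

theorem ip_sum_right {K : Type*} (s : Finset K) (f : Fk J) (g : K → Fk J) :
    ip f (∑ a ∈ s, g a) = ∑ a ∈ s, ip f (g a) := by
  rw [ip_comm, ip_sum_left]
  exact Finset.sum_congr rfl fun a _ => ip_comm _ _

theorem ip_self_nonneg (f : Fk J) : 0 ≤ ip f f :=
  Finset.sum_nonneg fun S _ => mul_self_nonneg _

theorem adj (i : J) (f g : Fk J) : ip (cr i f) g = ip f (an i g) := by
  unfold ip
  simp only [cr_apply, an_apply]
  have h1 : ∑ S : Finset J, (if i ∈ S then sg i S * f (S.erase i) else 0) * g S =
      ∑ S ∈ (univ : Finset (Finset J)).filter (fun S => i ∈ S), sg i S * f (S.erase i) * g S := by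
    rw [Finset.sum_filter]
    refine Finset.sum_congr rfl fun S _ => ?_
    split_ifs <;> ring
  have h2 : ∑ S : Finset J, f S * (if i ∈ S then 0 else sg i S * g (insert i S)) =
      ∑ S ∈ (univ : Finset (Finset J)).filter (fun S => i ∉ S),
        f S * (sg i S * g (insert i S)) := by
    rw [Finset.sum_filter]
    refine Finset.sum_congr rfl fun S _ => ?_
    by_cases h : i ∈ S <;> simp [h]
  rw [h1, h2]
  refine Finset.sum_nbij' (fun S => S.erase i) (fun S => insert i S) ?_ ?_ ?_ ?_ ?_
  · intro S _
    exact Finset.mem_filter.2 ⟨Finset.mem_univ _, Finset.notMem_erase i S⟩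
  · intro S _
    exact Finset.mem_filter.2 ⟨Finset.mem_univ _, Finset.mem_insert_self i S⟩
  · intro S hS
    exact Finset.insert_erase (Finset.mem_filter.1 hS).2
  · intro S hS
    exact Finset.erase_insert (Finset.mem_filter.1 hS).2
  · intro S hS
    have hS' := (Finset.mem_filter.1 hS).2
    rw [Finset.insert_erase hS', sg_erase i hS', ch_self]
    ring

theorem adj' (i : J) (f g : Fk J) : ip f (cr i g) = ip (an i f) g := by
  rw [ip_comm, adj, ip_comm]

/-- square of the norm -/
def nn (f : Fk J) : ℝ := ip f f

theorem nn_nonneg (f : Fk J) : 0 ≤ nn f := ip_self_nonneg f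

/-- `‖f‖² = ‖e_i ∧ f‖² + ‖i_i f‖²` -/
theorem nn_split (i : J) (f : Fk J) : nn f = nn (cr i f) + nn (an i f) := by
  unfold nn
  rw [adj, an_cr, if_pos rfl, ip_sub_right, adj']
  ring

/-- the form `1` -/
def vac : Fk J := fun S => if S = ∅ then 1 else 0

theorem an_vac (i : J) : an i (vac : Fk J) = 0 := by
  funext S
  simp only [an_apply, vac, Pi.zero_apply]
  split_ifs with h1 h2
  · rfl
  · exact absurd h2 (Finset.insert_ne_empty _ _)
  · ring

theorem nn_vac : nn (vac : Fk J) = 1 := by
  simp [nn, ip, vac]

/-- `f` is a form of degree `d` -/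
def Dg (d : ℕ) (f : Fk J) : Prop := ∀ S, f S ≠ 0 → S.card = d

theorem Dg_vac : Dg 0 (vac : Fk J) := by
  intro S h
  unfold vac at h
  by_contra hc
  rw [if_neg (fun h2 => hc (by rw [h2, Finset.card_empty]))] at h
  exact h rfl

theorem Dg_cr {d : ℕ} {f : Fk J} (h : Dg d f) (i : J) : Dg (d + 1) (cr i f) := by
  intro S hS
  rw [cr_apply] at hS
  by_cases hi : i ∈ S
  · rw [if_pos hi] at hS
    have := h _ (right_ne_zero_of_mul hS)
    rw [← Finset.card_erase_add_one hi, this]
  · rw [if_neg hi] at hS
    exact absurd rfl hS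

theorem Dg_add {d : ℕ} {f g : Fk J} (hf : Dg d f) (hg : Dg d g) : Dg d (f + g) := by
  intro S hS
  by_cases h : f S = 0
  · refine hg S fun h2 => hS ?_
    rw [Pi.add_apply, h, h2, add_zero]
  · exact hf S h

theorem Dg_smul {d : ℕ} {f : Fk J} (hf : Dg d f) (t : ℝ) : Dg d (t • f) := by
  intro S hS
  rw [Pi.smul_apply, smul_eq_mul] at hS
  exact hf S (right_ne_zero_of_mul hS)

theorem Dg_zero (d : ℕ) : Dg d (0 : Fk J) := by
  intro S hS
  exact absurd rfl hS

theorem Dg_sum {d : ℕ} {K : Type*} (s : Finset K) (f : K → Fk J) (hf : ∀ a ∈ s, Dg d (f a)) :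
    Dg d (∑ a ∈ s, f a) := by
  classical
  induction s using Finset.induction_on with
  | empty => simpa using Dg_zero d
  | insert a s ha ih =>
    rw [Finset.sum_insert ha]
    exact Dg_add (hf a (Finset.mem_insert_self a s))
      (ih fun b hb => hf b (Finset.mem_insert_of_mem hb))

theorem sum_nn_an {d : ℕ} {f : Fk J} (h : Dg d f) : ∑ i, nn (an i f) = d * nn f := by
  have h1 : ∀ i : J, nn (an i f) = ∑ S : Finset J, if i ∈ S then f S * f S else 0 := by
    intro i
    unfold nn
    rw [← adj]
    unfold ip
    refine Finset.sum_congr rfl fun S _ => ?_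
    simp only [cr_apply, an_apply]
    by_cases hi : i ∈ S
    · rw [if_pos hi, if_pos hi, if_neg (Finset.notMem_erase i S), Finset.insert_erase hi,
        sg_erase i hi, ch_self]
      have := sg_sq i S
      linear_combination f S * f S * this
    · rw [if_neg hi, if_neg hi]; ring
  simp only [h1]
  rw [Finset.sum_comm]
  unfold nn ip
  rw [Finset.mul_sum]
  refine Finset.sum_congr rfl fun S _ => ?_
  rw [← Finset.sum_filter]
  have h2 : (univ : Finset J).filter (fun i => i ∈ S) = S := by ext i; simp
  rw [h2, Finset.sum_const, nsmul_eq_mul]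
  by_cases h3 : f S = 0
  · rw [h3]; ring
  · rw [h S h3]

theorem sum_nn_cr {d : ℕ} {f : Fk J} (h : Dg d f) :
    ∑ i, nn (cr i f) = (Fintype.card J - d) * nn f := by
  have h1 : ∑ i : J, nn f = ∑ i, (nn (cr i f) + nn (an i f)) :=
    Finset.sum_congr rfl fun i _ => nn_split i f
  rw [Finset.sum_add_distrib, sum_nn_an h, Finset.sum_const, Finset.card_univ, nsmul_eq_mul] at h1
  linarith

end Pool.Agent.TH594.HP
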