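import Pool.Agent.TH594.HP.GM

/-!
# Operators on functionals of forms
-/

set_option autoImplicit false

namespace Pool.Agent.TH594.HP

open Finset

variable {J : Type*} [Fintype J] [DecidableEq J] {K K' : Type*} [Fintype K] [Fintype K']

theorem cr4 (i j k l : J) (f : Fk J) :
    cr i (cr j (cr k (cr l f))) = cr k (cr l (cr i (cr j f))) := by
  rw [cr_cr j k, map_neg, cr_cr i k, neg_neg, cr_cr j l, map_neg, map_neg, cr_cr i l, map_neg,
    neg_neg]

theorem L_comm (μ μ' : J → J → ℝ) (f : Fk J) : L μ (L μ' f) = L μ' (L μ f) := by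
  have h : ∀ μ μ' : J → J → ℝ, L μ (L μ' f) =
      ∑ i, ∑ j, ∑ k, ∑ l, (μ i j * μ' k l) • cr i (cr j (cr k (cr l f))) := by
    intro μ μ'
    rw [L_apply μ' f, L_apply μ]
    refine Finset.sum_congr rfl fun i _ => Finset.sum_congr rfl fun j _ => ?_
    simp only [map_sum, map_smul, Finset.smul_sum, smul_smul]
  rw [h, h]
  have e1 : ∀ F : J → J → J → J → Fk J, ∑ i, ∑ j, ∑ k, ∑ l, F i j k l =
      ∑ i, ∑ j, ∑ k, ∑ l, F k l i j := by
    intro F
    have h1 : ∀ G : J → J → J → J → Fk J, ∑ i, ∑ j, ∑ k, ∑ l, G i j k l =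
        ∑ p : J × J, ∑ q : J × J, G p.1 p.2 q.1 q.2 := by
      intro G
      rw [Fintype.sum_prod_type]
      refine Finset.sum_congr rfl fun i _ => Finset.sum_congr rfl fun j _ => ?_
      rw [Fintype.sum_prod_type]
    rw [h1, h1 (fun i j k l => F k l i j), Finset.sum_comm]
  rw [e1]
  refine Finset.sum_congr rfl fun i _ => Finset.sum_congr rfl fun j _ =>
    Finset.sum_congr rfl fun k _ => Finset.sum_congr rfl fun l _ => ?_
  rw [cr4 k l i j, mul_comm]

theorem Dg_L {d : ℕ} {f : Fk J} (h : Dg d f) (μ : J → J → ℝ) : Dg (d + 2) (L μ f) := by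
  rw [L_apply]
  exact Dg_sum _ _ fun i _ => Dg_sum _ _ fun j _ => Dg_smul (Dg_cr (Dg_cr h j) i) _

/-- the operator on functionals given by a family of two-forms with weights -/
noncomputable def Op (s : K → ℝ) (ν : K → J → J → ℝ) : Module.End ℝ (Fk J → ℝ) where
  toFun V f := ∑ a, s a * V (L (ν a) f)
  map_add' V W := by
    funext f
    simp only [Pi.add_apply, mul_add, Finset.sum_add_distrib]
  map_smul' t V := by
    funext f
    simp only [Pi.smul_apply, smul_eq_mul, RingHom.id_apply, Finset.mul_sum]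
    exact Finset.sum_congr rfl fun a _ => by ring

theorem Op_apply (s : K → ℝ) (ν : K → J → J → ℝ) (V : Fk J → ℝ) (f : Fk J) :
    Op s ν V f = ∑ a, s a * V (L (ν a) f) := rfl

theorem Op_comm (s : K → ℝ) (ν : K → J → J → ℝ) (s' : K' → ℝ) (ν' : K' → J → J → ℝ) :
    Commute (Op s ν) (Op s' ν') := by
  apply LinearMap.ext
  intro V
  funext f
  simp only [Module.End.mul_apply, Op_apply, Finset.mul_sum]
  rw [Finset.sum_comm]
  refine Finset.sum_congr rfl fun b _ => Finset.sum_congr rfl fun a _ => ?_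
  rw [L_comm]
  ring

/-- successive application of the operators `L (μ b)` -/
noncomputable def LL : (k : ℕ) → (Fin k → J → J → ℝ) → Fk J → Fk J
  | 0, _, f => f
  | k + 1, μ, f => LL k (fun b => μ b.succ) (L (μ 0) f)

theorem Op_pow (s : K → ℝ) (ν : K → J → J → ℝ) (k : ℕ) (V : Fk J → ℝ) : ∀ f : Fk J,
    ((Op s ν) ^ k) V f = ∑ a : Fin k → K, (∏ b, s (a b)) * V (LL k (fun b => ν (a b)) f) := by
  induction k with
  | zero =>
    intro f
    simp [LL]
  | succ k ih =>
    intro f
    rw [pow_succ', Module.End.mul_apply, Op_apply]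
    simp only [ih, Finset.mul_sum]
    rw [← Fintype.sum_prod_type' (f := fun (x : K) (y : Fin k → K) =>
      s x * ((∏ b, s (y b)) * V (LL k (fun b => ν (y b)) (L (ν x) f))))]
    refine Fintype.sum_equiv (Fin.consEquiv fun _ => K) _ _ ?_
    rintro ⟨x, y⟩
    simp only [Fin.consEquiv_apply, Fin.prod_univ_succ, Fin.cons_zero, Fin.cons_succ, LL]
    ring

/-- creation operators as endomorphisms -/
noncomputable def crE (i : J) : Module.End ℝ (Fk J) := cr i

/-- the places in order -/
def Ps : (k : ℕ) → List (Fin k × Bool)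
  | 0 => []
  | k + 1 => (Ps k).map (fun p => (p.1.succ, p.2)) ++ [(0, false), (0, true)]

theorem Ps_mem : ∀ (k : ℕ) (p : Fin k × Bool), p ∈ Ps k
  | 0, p => p.1.elim0
  | k + 1, (b, t) => by
    rw [Ps, List.mem_append]
    refine Fin.cases ?_ (fun b => ?_) b
    · right
      cases t <;> simp
    · left
      exact List.mem_map.2 ⟨(b, t), Ps_mem k (b, t), rfl⟩

theorem Ps_nodup : ∀ k : ℕ, (Ps k).Nodup
  | 0 => List.nodup_nil
  | k + 1 => by
    rw [Ps]
    refine List.Nodup.append ?_ (by simp) ?_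
    · refine List.Nodup.map ?_ (Ps_nodup k)
      rintro ⟨b, t⟩ ⟨b', t'⟩ h
      simpa using h
    · intro p hp hq
      obtain ⟨q, _, rfl⟩ := List.mem_map.1 hp
      simp [Fin.succ_ne_zero] at hq

theorem LL_expand (k : ℕ) : ∀ (μ : Fin k → J → J → ℝ) (f : Fk J),
    LL k μ f = ∑ h : Fin k → J × J, (∏ b, μ b (h b).1 (h b).2) •
      ((Ps k).map (fun p => crE (if p.2 then (h p.1).2 else (h p.1).1))).prod f := by
  induction k with
  | zero =>
    intro μ f
    simp [LL, Ps]
  | succ k ih =>
    intro μ f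
    rw [LL, ih, L_apply]
    have key : ∑ x : (J × J) × (Fin k → J × J),
        (μ 0 x.1.1 x.1.2 * ∏ b : Fin k, μ b.succ (x.2 b).1 (x.2 b).2) •
        ((Ps k).map (fun p => crE (if p.2 then (x.2 p.1).2 else (x.2 p.1).1))).prod
          (cr x.1.1 (cr x.1.2 f)) =
        ∑ h : Fin (k + 1) → J × J, (∏ b, μ b (h b).1 (h b).2) •
      ((Ps (k + 1)).map (fun p => crE (if p.2 then (h p.1).2 else (h p.1).1))).prod f := by
      refine Fintype.sum_equiv (Fin.consEquiv fun _ => J × J) _ _ ?_
      rintro ⟨x, y⟩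
      simp only [Fin.consEquiv_apply, Fin.prod_univ_succ, Fin.cons_zero, Fin.cons_succ]
      congr 1
      rw [Ps, List.map_append, List.prod_append, Module.End.mul_apply, List.map_map]
      have e1 : (List.map (fun p : Fin (k + 1) × Bool => crE
          (if p.2 = true then (Fin.cons (α := fun _ => J × J) x y p.1).2 else
            (Fin.cons (α := fun _ => J × J) x y p.1).1))
          [(0, false), (0, true)]).prod f = cr x.1 (cr x.2 f) := by
        simp [crE, Module.End.mul_apply]
      rw [e1]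
      rfl
    rw [← key, Fintype.sum_prod_type_right]
    refine Finset.sum_congr rfl fun h _ => ?_
    rw [Fintype.sum_prod_type, map_sum, Finset.smul_sum]
    refine Finset.sum_congr rfl fun i _ => ?_
    rw [map_sum, Finset.smul_sum]
    refine Finset.sum_congr rfl fun j _ => ?_
    rw [map_smul, smul_smul, mul_comm (μ 0 i j)]

/-- creation of a vector -/
noncomputable def cv (x : J → ℝ) : Module.End ℝ (Fk J) := ∑ i, x i • crE i

/-- creation as a linear map of the vector -/
noncomputable def cvL : (J → ℝ) →ₗ[ℝ] Module.End ℝ (Fk J) where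
  toFun := cv
  map_add' x y := by
    simp only [cv, Pi.add_apply, add_smul, Finset.sum_add_distrib]
  map_smul' t x := by
    simp only [cv, Pi.smul_apply, smul_eq_mul, RingHom.id_apply, Finset.smul_sum, smul_smul]

theorem cv_single (i : J) : cv (Pi.single i 1) = crE i := by
  unfold cv
  rw [Finset.sum_eq_single i]
  · rw [Pi.single_eq_same, one_smul]
  · intro j _ hj
    rw [Pi.single_eq_of_ne hj, zero_smul]
  · simp

theorem cv_apply (x : J → ℝ) (f : Fk J) : cv x f = ∑ i, x i • cr i f := by
  simp [cv, LinearMap.sum_apply, crE]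

theorem cv_sq (x : J → ℝ) : cv x * cv x = 0 := by
  apply LinearMap.ext
  intro f
  rw [Module.End.mul_apply, LinearMap.zero_apply]
  have h1 : cv x (cv x f) = ∑ i, ∑ j, (x i * x j) • cr i (cr j f) := by
    rw [cv_apply x f, cv_apply]
    refine Finset.sum_congr rfl fun i _ => ?_
    simp only [map_sum, map_smul, Finset.smul_sum, smul_smul]
  have h2 : cv x (cv x f) = - cv x (cv x f) := by
    conv_lhs => rw [h1, Finset.sum_comm]
    rw [h1, ← Finset.sum_neg_distrib]
    refine Finset.sum_congr rfl fun i _ => ?_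
    rw [← Finset.sum_neg_distrib]
    refine Finset.sum_congr rfl fun j _ => ?_
    rw [cr_cr, smul_neg, mul_comm]
  exact self_eq_neg.mp h2

section alt

variable {P : Type*} [Fintype P] [DecidableEq P]

/-- products of creation operators along a list are alternating -/
theorem alt_list (l : List P) (hn : l.Nodup) (hm : ∀ p, p ∈ l) :
    ∃ A : (J → ℝ) [⋀^P]→ₗ[ℝ] Module.End ℝ (Fk J),
      ∀ v : P → J → ℝ, A v = (l.map (fun p => cv (v p))).prod := by
  classical
  let Φ : ExteriorAlgebra ℝ (J → ℝ) →ₐ[ℝ] Module.End ℝ (Fk J) :=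
    ExteriorAlgebra.lift ℝ ⟨cvL, fun x => cv_sq x⟩
  let e : Fin l.length ≃ P := List.Nodup.getEquivOfForallMemList l hn hm
  refine ⟨(Φ.toLinearMap.compAlternatingMap (ExteriorAlgebra.ιMulti ℝ l.length)).domDomCongr e, ?_⟩
  intro v
  rw [AlternatingMap.domDomCongr_apply, LinearMap.compAlternatingMap_apply,
    ExteriorAlgebra.ιMulti_apply]
  show Φ _ = _
  rw [map_list_prod, List.map_ofFn]
  congr 1
  have h1 : (List.ofFn (Φ ∘ fun i => (ExteriorAlgebra.ι ℝ) ((v ∘ e) i)) : List _) =
      List.ofFn (fun i : Fin l.length => cv (v (l.get i))) := by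
    congr 1
    funext i
    simp only [Function.comp_apply]
    show (ExteriorAlgebra.lift ℝ ⟨cvL, fun x => cv_sq x⟩) _ = _
    rw [ExteriorAlgebra.lift_ι_apply]
    rfl
  rw [h1]
  conv_rhs => rw [← List.ofFn_get l, List.map_ofFn]
  rfl

end alt

/-- the list product of the creation operators -/
noncomputable def cl (l : List J) : Fk J := (l.map crE).prod vac

theorem cl_cons (i : J) (l : List J) : cl (i :: l) = cr i (cl l) := by
  simp [cl, Module.End.mul_apply, crE]

theorem an_cl (i : J) (l : List J) (h : i ∉ l) : an i (cl l) = 0 := by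
  induction l with
  | nil => simp [cl, an_vac]
  | cons j l ih =>
    rw [List.mem_cons, not_or] at h
    rw [cl_cons, an_cr, if_neg h.1, ih h.2, map_zero, sub_zero]

theorem nn_cl (l : List J) (h : l.Nodup) : nn (cl l) = 1 := by
  induction l with
  | nil => simp [cl, nn_vac]
  | cons j l ih =>
    rw [List.nodup_cons] at h
    have h1 := nn_split j (cl l)
    rw [an_cl j l h.1, ih h.2, ← cl_cons] at h1
    have h2 : nn (0 : Fk J) = 0 := ip_zero_left _
    rw [h2, add_zero] at h1
    exact h1.symm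

end Pool.Agent.TH594.HP
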