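import Pool.Agent.TH594.HP.Fock

/-!
# The Gallot-Meyer inequality for exterior products

For a curvature tensor `E = ∑ ν_a ⊗ ν_a ≥ 0` (with the Bianchi identity) and every form `f`:
`∑_a ‖ν_a ∧ f‖² ≤ (tr E) ‖f‖² - Ric_E(f, f) / 2`.
-/

set_option autoImplicit false

namespace Pool.Agent.TH594.HP

open Finset

variable {J : Type*} [Fintype J] [DecidableEq J] {K : Type*} [Fintype K]

/-- exterior product with twice the form `∑_{i<j} μ i j e_i ∧ e_j` -/
noncomputable def L (μ : J → J → ℝ) : Fk J →ₗ[ℝ] Fk J := ∑ i, ∑ j, μ i j • (cr i ∘ₗ cr j)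

theorem L_apply (μ : J → J → ℝ) (f : Fk J) : L μ f = ∑ i, ∑ j, μ i j • cr i (cr j f) := by
  simp [L, LinearMap.sum_apply]

/-- the tensor with the square roots `ν` -/
def EE (ν : K → J → J → ℝ) (i j k l : J) : ℝ := ∑ a, ν a i j * ν a k l

/-- antisymmetry and Bianchi identity -/
structure BiN (ν : K → J → J → ℝ) : Prop where
  anti : ∀ a i j, ν a j i = - ν a i j
  bia : ∀ i j k l, EE ν i j k l + EE ν j k i l + EE ν k i j l = 0

/-- Ricci tensor -/
def rc (ν : K → J → J → ℝ) (j l : J) : ℝ := ∑ i, EE ν i j i l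

/-- twice the trace -/
def tt (ν : K → J → J → ℝ) : ℝ := ∑ i, ∑ j, EE ν i j i j

/-- the Ricci form on forms -/
noncomputable def Rn (ν : K → J → J → ℝ) (f : Fk J) : ℝ :=
  ∑ j, ∑ l, rc ν j l * ip (an j f) (an l f)

/-- squares of the contractions -/
noncomputable def An (ν : K → J → J → ℝ) (f : Fk J) : ℝ :=
  ∑ a, nn (∑ i, ∑ j, ν a i j • an i (an j f))

/-- the sum of the squares of the exterior products -/
noncomputable def Ls (ν : K → J → J → ℝ) (f : Fk J) : ℝ := ∑ a, nn (L (ν a) f)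

/-- the sum of the squares of the derivations -/
noncomputable def Dn (ν : K → J → J → ℝ) (f : Fk J) : ℝ :=
  ∑ a, nn (∑ i, ∑ j, ν a i j • cr i (an j f))

theorem An_nonneg (ν : K → J → J → ℝ) (f : Fk J) : 0 ≤ An ν f :=
  Finset.sum_nonneg fun _ _ => nn_nonneg _

theorem Dn_nonneg (ν : K → J → J → ℝ) (f : Fk J) : 0 ≤ Dn ν f :=
  Finset.sum_nonneg fun _ _ => nn_nonneg _

theorem Ls_nonneg (ν : K → J → J → ℝ) (f : Fk J) : 0 ≤ Ls ν f :=
  Finset.sum_nonneg fun _ _ => nn_nonneg _

omit [Fintype J] [DecidableEq J] in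
theorem EE_12 {ν : K → J → J → ℝ} (h : ∀ a i j, ν a j i = - ν a i j) (i j k l : J) :
    EE ν j i k l = - EE ν i j k l := by
  unfold EE
  rw [← Finset.sum_neg_distrib]
  exact Finset.sum_congr rfl fun a _ => by rw [h a i j]; ring

omit [Fintype J] [DecidableEq J] in
theorem EE_34 {ν : K → J → J → ℝ} (h : ∀ a i j, ν a j i = - ν a i j) (i j k l : J) :
    EE ν i j l k = - EE ν i j k l := by
  unfold EE
  rw [← Finset.sum_neg_distrib]
  exact Finset.sum_congr rfl fun a _ => by rw [h a k l]; ring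

omit [Fintype J] [DecidableEq J] in
theorem EE_pair (ν : K → J → J → ℝ) (i j k l : J) : EE ν k l i j = EE ν i j k l := by
  unfold EE
  exact Finset.sum_congr rfl fun a _ => by ring

omit [DecidableEq J] in
theorem rc_symm (ν : K → J → J → ℝ) (j l : J) : rc ν l j = rc ν j l := by
  unfold rc
  exact Finset.sum_congr rfl fun i _ => EE_pair ν i j i l

omit [DecidableEq J] in
theorem tt_eq (ν : K → J → J → ℝ) : tt ν = ∑ j, rc ν j j := by
  unfold tt rc
  exact Finset.sum_comm

/-- general expansion of a sum of squares -/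
theorem sq_expand (ν : K → J → J → ℝ) (g : J → J → Fk J) :
    ∑ a, nn (∑ i, ∑ j, ν a i j • g i j) =
      ∑ i, ∑ j, ∑ k, ∑ l, EE ν i j k l * ip (g i j) (g k l) := by
  have h1 : ∀ a, nn (∑ i, ∑ j, ν a i j • g i j) =
      ∑ i, ∑ j, ∑ k, ∑ l, ν a i j * ν a k l * ip (g i j) (g k l) := by
    intro a
    unfold nn
    rw [ip_sum_left]
    refine Finset.sum_congr rfl fun i _ => ?_
    rw [ip_sum_left]
    refine Finset.sum_congr rfl fun j _ => ?_
    rw [ip_sum_right]
    refine Finset.sum_congr rfl fun k _ => ?_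
    rw [ip_sum_right]
    refine Finset.sum_congr rfl fun l _ => ?_
    rw [ip_smul_left, ip_smul_right]
    ring
  simp only [h1]
  rw [Finset.sum_comm]
  refine Finset.sum_congr rfl fun i _ => ?_
  rw [Finset.sum_comm]
  refine Finset.sum_congr rfl fun j _ => ?_
  rw [Finset.sum_comm]
  refine Finset.sum_congr rfl fun k _ => ?_
  rw [Finset.sum_comm]
  refine Finset.sum_congr rfl fun l _ => ?_
  rw [EE, Finset.sum_mul]

/-- `δ` -/
noncomputable def dl (i j : J) : ℝ := if i = j then 1 else 0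

theorem ip_ite (i j : J) (f g : Fk J) : ip f (if i = j then g else 0) = dl i j * ip f g := by
  unfold dl
  split_ifs
  · ring
  · rw [ip_zero_right]; ring

theorem X_eq (f : Fk J) (i j k l : J) :
    ip (cr i (cr j f)) (cr k (cr l f)) =
      dl i k * (dl j l * nn f) - dl i l * (dl j k * nn f)
      - dl i k * ip (an l f) (an j f) + dl i l * ip (an k f) (an j f)
      + dl j k * ip (an l f) (an i f) - dl j l * ip (an k f) (an i f)
      + ip (an i (an j f)) (an k (an l f)) := by
  have e1 : ∀ g : Fk J, ip g (an i (cr k (cr l f))) =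
      dl i k * ip g (cr l f) - dl i l * ip g (cr k f) + ip g (cr k (cr l (an i f))) := by
    intro g
    rw [an_cr i k, ip_sub_right, ip_ite, an_cr i l, map_sub, ip_sub_right]
    have : cr k (if i = l then f else 0) = if i = l then cr k f else 0 := by
      split_ifs
      · rfl
      · rw [map_zero]
    rw [this, ip_ite]
    ring
  have e2 : ∀ a b : J, ip (cr a f) (cr b f) = dl a b * nn f - ip (an b f) (an a f) := by
    intro a b
    rw [adj, an_cr, ip_sub_right, ip_ite, adj']
    rfl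
  have e3 : ip (cr j f) (cr k (cr l (an i f))) =
      dl j k * ip (an l f) (an i f) - dl j l * ip (an k f) (an i f) +
        ip (an l (an k f)) (an j (an i f)) := by
    rw [adj, an_cr j k, ip_sub_right, ip_ite, adj', an_cr j l, map_sub, ip_sub_right]
    have : cr k (if j = l then an i f else 0) = if j = l then cr k (an i f) else 0 := by
      split_ifs
      · rfl
      · rw [map_zero]
    rw [this, ip_ite, adj' k, adj' k, adj' l]
    ring
  rw [adj, e1, e2, e2, e3, an_an l k, an_an j i, ip_neg_left, ip_neg_right, neg_neg,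
    ip_comm (an k (an l f))]
  ring

theorem Y_eq (f : Fk J) (i j k l : J) :
    ip (cr i (an j f)) (cr k (an l f)) =
      dl i k * ip (an j f) (an l f) - ip (an k (an j f)) (an i (an l f)) := by
  rw [adj, an_cr, ip_sub_right, ip_ite, adj']

omit [DecidableEq J] in
theorem sum4_add (F G : J → J → J → J → ℝ) :
    ∑ i, ∑ j, ∑ k, ∑ l, (F i j k l + G i j k l) =
      ∑ i, ∑ j, ∑ k, ∑ l, F i j k l + ∑ i, ∑ j, ∑ k, ∑ l, G i j k l := by
  simp only [Finset.sum_add_distrib]

theorem s_ik (F : J → J → J → J → ℝ) :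
    ∑ i, ∑ j, ∑ k, ∑ l, dl i k * F i j k l = ∑ i, ∑ j, ∑ l, F i j i l := by
  refine Finset.sum_congr rfl fun i _ => Finset.sum_congr rfl fun j _ => ?_
  rw [Finset.sum_eq_single i]
  · simp [dl]
  · intro k _ hk
    refine Finset.sum_eq_zero fun l _ => ?_
    rw [dl, if_neg (Ne.symm hk), zero_mul]
  · simp

theorem s_il (F : J → J → J → J → ℝ) :
    ∑ i, ∑ j, ∑ k, ∑ l, dl i l * F i j k l = ∑ i, ∑ j, ∑ k, F i j k i := by
  refine Finset.sum_congr rfl fun i _ => Finset.sum_congr rfl fun j _ =>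
    Finset.sum_congr rfl fun k _ => ?_
  rw [Finset.sum_eq_single i]
  · simp [dl]
  · intro l _ hl
    rw [dl, if_neg (Ne.symm hl), zero_mul]
  · simp

theorem s_jk (F : J → J → J → J → ℝ) :
    ∑ i, ∑ j, ∑ k, ∑ l, dl j k * F i j k l = ∑ i, ∑ j, ∑ l, F i j j l := by
  refine Finset.sum_congr rfl fun i _ => Finset.sum_congr rfl fun j _ => ?_
  rw [Finset.sum_eq_single j]
  · simp [dl]
  · intro k _ hk
    refine Finset.sum_eq_zero fun l _ => ?_
    rw [dl, if_neg (Ne.symm hk), zero_mul]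
  · simp

theorem s_jl (F : J → J → J → J → ℝ) :
    ∑ i, ∑ j, ∑ k, ∑ l, dl j l * F i j k l = ∑ i, ∑ j, ∑ k, F i j k j := by
  refine Finset.sum_congr rfl fun i _ => Finset.sum_congr rfl fun j _ =>
    Finset.sum_congr rfl fun k _ => ?_
  rw [Finset.sum_eq_single j]
  · simp [dl]
  · intro l _ hl
    rw [dl, if_neg (Ne.symm hl), zero_mul]
  · simp

theorem s_jl2 (F : J → J → ℝ) (G : J → J → ℝ) :
    ∑ i, ∑ j, ∑ l, dl j l * (G i j * F j l) = ∑ i, ∑ j, G i j * F j j := by
  refine Finset.sum_congr rfl fun i _ => Finset.sum_congr rfl fun j _ => ?_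
  rw [Finset.sum_eq_single j]
  · simp [dl]
  · intro l _ hl
    rw [dl, if_neg (Ne.symm hl), zero_mul]
  · simp

theorem An_eq (ν : K → J → J → ℝ) (f : Fk J) :
    An ν f = ∑ i, ∑ j, ∑ k, ∑ l, EE ν i j k l * ip (an i (an j f)) (an k (an l f)) :=
  sq_expand ν fun i j => an i (an j f)

theorem Rn_eq (ν : K → J → J → ℝ) (f : Fk J) :
    ∑ i, ∑ j, ∑ l, EE ν i j i l * ip (an j f) (an l f) = Rn ν f := by
  unfold Rn rc
  rw [Finset.sum_comm]
  refine Finset.sum_congr rfl fun j _ => ?_
  rw [Finset.sum_comm]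
  refine Finset.sum_congr rfl fun l _ => ?_
  rw [Finset.sum_mul]

/-- the sum of squares of the exterior products -/
theorem Ls_eq {ν : K → J → J → ℝ} (h : ∀ a i j, ν a j i = - ν a i j) (f : Fk J) :
    Ls ν f = 2 * tt ν * nn f - 4 * Rn ν f + An ν f := by
  have h0 : Ls ν f = ∑ i, ∑ j, ∑ k, ∑ l, EE ν i j k l * ip (cr i (cr j f)) (cr k (cr l f)) := by
    unfold Ls
    simp only [L_apply]
    exact sq_expand ν fun i j => cr i (cr j f)
  rw [h0]
  have h1 : ∀ i j k l, EE ν i j k l * ip (cr i (cr j f)) (cr k (cr l f)) =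
      dl i k * (dl j l * (EE ν i j k l * nn f)) + (-(dl i l * (dl j k * (EE ν i j k l * nn f))) +
      (-(dl i k * (EE ν i j k l * ip (an l f) (an j f))) +
      (dl i l * (EE ν i j k l * ip (an k f) (an j f)) +
      (dl j k * (EE ν i j k l * ip (an l f) (an i f)) +
      (-(dl j l * (EE ν i j k l * ip (an k f) (an i f))) +
      EE ν i j k l * ip (an i (an j f)) (an k (an l f))))))) := by
    intro i j k l
    rw [X_eq]; ring
  simp only [h1, sum4_add, Finset.sum_neg_distrib]
  rw [← An_eq]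
  have t1 : ∑ i, ∑ j, ∑ k, ∑ l, dl i k * (dl j l * (EE ν i j k l * nn f)) = tt ν * nn f := by
    rw [s_ik (fun i j k l => dl j l * (EE ν i j k l * nn f))]
    unfold tt
    rw [Finset.sum_mul]
    refine Finset.sum_congr rfl fun i _ => ?_
    rw [Finset.sum_mul]
    refine Finset.sum_congr rfl fun j _ => ?_
    rw [Finset.sum_eq_single j]
    · simp [dl]
    · intro l _ hl
      rw [dl, if_neg (Ne.symm hl), zero_mul]
    · simp
  have t2 : ∑ i, ∑ j, ∑ k, ∑ l, dl i l * (dl j k * (EE ν i j k l * nn f)) = - (tt ν * nn f) := by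
    rw [s_il (fun i j k l => dl j k * (EE ν i j k l * nn f))]
    unfold tt
    rw [Finset.sum_mul, ← Finset.sum_neg_distrib]
    refine Finset.sum_congr rfl fun i _ => ?_
    rw [Finset.sum_mul, ← Finset.sum_neg_distrib]
    refine Finset.sum_congr rfl fun j _ => ?_
    rw [Finset.sum_eq_single j]
    · rw [EE_34 h i j i j]; simp [dl]
    · intro l _ hl
      rw [dl, if_neg (Ne.symm hl), zero_mul]
    · simp
  have t3 : ∑ i, ∑ j, ∑ k, ∑ l, dl i k * (EE ν i j k l * ip (an l f) (an j f)) = Rn ν f := by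
    rw [s_ik (fun i j k l => EE ν i j k l * ip (an l f) (an j f)), ← Rn_eq]
    refine Finset.sum_congr rfl fun i _ => Finset.sum_congr rfl fun j _ =>
      Finset.sum_congr rfl fun l _ => ?_
    rw [ip_comm]
  have t4 : ∑ i, ∑ j, ∑ k, ∑ l, dl i l * (EE ν i j k l * ip (an k f) (an j f)) = - Rn ν f := by
    rw [s_il (fun i j k l => EE ν i j k l * ip (an k f) (an j f)), ← Rn_eq,
      ← Finset.sum_neg_distrib]
    refine Finset.sum_congr rfl fun i _ => ?_
    rw [← Finset.sum_neg_distrib]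
    refine Finset.sum_congr rfl fun j _ => ?_
    rw [← Finset.sum_neg_distrib]
    refine Finset.sum_congr rfl fun k _ => ?_
    rw [EE_34 h i j i k, ip_comm]; ring
  have t5 : ∑ i, ∑ j, ∑ k, ∑ l, dl j k * (EE ν i j k l * ip (an l f) (an i f)) = - Rn ν f := by
    rw [s_jk (fun i j k l => EE ν i j k l * ip (an l f) (an i f)), ← Rn_eq, Finset.sum_comm,
      ← Finset.sum_neg_distrib]
    refine Finset.sum_congr rfl fun j _ => ?_
    rw [← Finset.sum_neg_distrib]
    refine Finset.sum_congr rfl fun i _ => ?_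
    rw [← Finset.sum_neg_distrib]
    refine Finset.sum_congr rfl fun l _ => ?_
    rw [EE_12 h j i, ip_comm]; ring
  have t6 : ∑ i, ∑ j, ∑ k, ∑ l, dl j l * (EE ν i j k l * ip (an k f) (an i f)) = Rn ν f := by
    rw [s_jl (fun i j k l => EE ν i j k l * ip (an k f) (an i f)), ← Rn_eq, Finset.sum_comm]
    refine Finset.sum_congr rfl fun j _ => Finset.sum_congr rfl fun i _ =>
      Finset.sum_congr rfl fun k _ => ?_
    rw [EE_12 h j i, EE_34 h j i j k, ip_comm]; ring
  rw [t1, t2, t3, t4, t5, t6]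
  ring

/-- the sum of squares of the derivations -/
theorem Dn_eq {ν : K → J → J → ℝ} (h : BiN ν) (f : Fk J) :
    Dn ν f = Rn ν f - 1 / 2 * An ν f := by
  have h0 : Dn ν f = ∑ i, ∑ j, ∑ k, ∑ l, EE ν i j k l * ip (cr i (an j f)) (cr k (an l f)) :=
    sq_expand ν fun i j => cr i (an j f)
  rw [h0]
  have h1 : ∀ i j k l, EE ν i j k l * ip (cr i (an j f)) (cr k (an l f)) =
      dl i k * (EE ν i j k l * ip (an j f) (an l f)) +
      (-(EE ν i j k l * ip (an k (an j f)) (an i (an l f)))) := by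
    intro i j k l
    rw [Y_eq]; ring
  simp only [h1, sum4_add, Finset.sum_neg_distrib]
  rw [s_ik (fun i j k l => EE ν i j k l * ip (an j f) (an l f)), Rn_eq]
  set Z := ∑ i, ∑ j, ∑ k, ∑ l, EE ν i j k l * ip (an k (an j f)) (an i (an l f)) with hZ
  have hZ2 : Z = ∑ i, ∑ j, ∑ k, ∑ l, - (EE ν i k j l * ip (an k (an j f)) (an i (an l f))) := by
    rw [hZ]
    refine Finset.sum_congr rfl fun i _ => ?_
    rw [Finset.sum_comm]
    refine Finset.sum_congr rfl fun j _ => Finset.sum_congr rfl fun k _ =>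
      Finset.sum_congr rfl fun l _ => ?_
    rw [an_an j k, ip_neg_left]; ring
  have hA : An ν f = ∑ i, ∑ j, ∑ k, ∑ l, EE ν k j i l * ip (an k (an j f)) (an i (an l f)) := by
    rw [An_eq]
    have e1 : ∀ F : J → J → J → J → ℝ, ∑ i, ∑ j, ∑ k, ∑ l, F i j k l =
        ∑ i, ∑ j, ∑ k, ∑ l, F k j i l := by
      intro F
      rw [Finset.sum_comm]
      rw [Finset.sum_comm (γ := J) (s := univ) (t := univ)
        (f := fun i j => ∑ k, ∑ l, F k j i l)]
      refine Finset.sum_congr rfl fun j _ => ?_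
      exact Finset.sum_comm
    exact e1 _
  have h2 : Z + Z = An ν f := by
    nth_rewrite 1 [hZ]
    rw [hZ2, hA, ← sum4_add]
    refine Finset.sum_congr rfl fun i _ => Finset.sum_congr rfl fun j _ =>
      Finset.sum_congr rfl fun k _ => Finset.sum_congr rfl fun l _ => ?_
    have hb := h.bia i j k l
    have e1 := EE_12 h.anti j k i l
    have e2 := EE_12 h.anti i k j l
    have e3 : EE ν i j k l + - EE ν i k j l = EE ν k j i l := by linarith
    rw [← e3]; ring
  linarith

/-- **the main inequality** -/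
theorem Ls_le {ν : K → J → J → ℝ} (h : BiN ν) (f : Fk J) :
    Ls ν f ≤ 2 * tt ν * nn f - 2 * Rn ν f := by
  have h1 := Ls_eq h.anti f
  have h2 := Dn_eq h f
  have h3 := Dn_nonneg ν f
  linarith

theorem Rn_nonneg {ν : K → J → J → ℝ} (h : BiN ν) (f : Fk J) : 0 ≤ Rn ν f := by
  have h2 := Dn_eq h f
  have h3 := Dn_nonneg ν f
  have h4 := An_nonneg ν f
  linarith

theorem Ls_le' {ν : K → J → J → ℝ} (h : BiN ν) (f : Fk J) : Ls ν f ≤ 2 * tt ν * nn f := by
  have h1 := Ls_le h f
  have h2 := Rn_nonneg h f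
  linarith

omit [DecidableEq J] in
theorem tt_nonneg (ν : K → J → J → ℝ) : 0 ≤ tt ν :=
  Finset.sum_nonneg fun _ _ => Finset.sum_nonneg fun _ _ => Finset.sum_nonneg fun _ _ =>
    mul_self_nonneg _

end Pool.Agent.TH594.HP
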