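import Pool.Agent.TH594.HP.Fun
import Pool.Agent.W669.HD.Main

/-!
# The Gauss-Bonnet-Chern sum in terms of operators on forms
-/

set_option autoImplicit false

namespace Pool.Agent.TH594.HP

open Finset
open Pool.Agent.W666.GB (sn)
open Pool.Agent.W669.HD (T4 gm)

theorem nn_smul {J : Type*} [Fintype J] [DecidableEq J] (t : ℝ) (f : Fk J) :
    nn (t • f) = t ^ 2 * nn f := by
  unfold nn
  rw [ip_smul_left, ip_smul_right]; ring

variable {m : ℕ}

/-- the alternating sum -/
noncomputable def pf (μ : Fin m → Fin m × Bool → Fin m × Bool → ℝ) : ℝ :=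
  ∑ σ : Equiv.Perm (Fin m × Bool), sn σ * ∏ b, μ b (σ (b, false)) (σ (b, true))

/-- pairs of functions as functions of pairs -/
def pairE (m : ℕ) : (Fin m × Bool → Fin m × Bool) ≃ (Fin m → (Fin m × Bool) × (Fin m × Bool)) where
  toFun H b := (H (b, false), H (b, true))
  invFun h p := if p.2 then (h p.1).2 else (h p.1).1
  left_inv H := by
    funext p
    rcases p with ⟨b, t⟩
    cases t <;> simp
  right_inv h := by
    funext b
    simp

theorem nn_LL (μ : Fin m → Fin m × Bool → Fin m × Bool → ℝ) :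
    nn (LL m μ vac) = pf μ ^ 2 := by
  classical
  obtain ⟨A, hA⟩ := alt_list (J := Fin m × Bool) (P := Fin m × Bool) (Ps m) (Ps_nodup m) (Ps_mem m)
  obtain ⟨W, hW⟩ : ∃ W : (Fin m × Bool → Fin m × Bool) → Fk (Fin m × Bool),
      ∀ H, W H = ((Ps m).map (fun p => crE (H p))).prod vac := ⟨_, fun _ => rfl⟩
  have hWA : ∀ H, W H = A (fun p => Pi.single (H p) 1) vac := by
    intro H
    rw [hW, hA]
    simp only [cv_single]
  have h1 : LL m μ vac = ∑ H : Fin m × Bool → Fin m × Bool,
      (∏ b, μ b (H (b, false)) (H (b, true))) • W H := by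
    rw [LL_expand]
    symm
    refine Fintype.sum_equiv (pairE m) _ _ fun H => ?_
    rw [hW]
    congr 1
    congr 1
    congr 1
    refine List.map_congr_left fun p _ => ?_
    rcases p with ⟨b, t⟩
    cases t <;> simp [pairE]
  have h2 : ∀ H : Fin m × Bool → Fin m × Bool, ¬ Function.Bijective H → W H = 0 := by
    intro H hH
    have h3 : ¬ Function.Injective H := fun h => hH (Finite.injective_iff_bijective.mp h)
    simp only [Function.Injective, not_forall] at h3
    obtain ⟨p, q, hpq, hne⟩ := h3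
    rw [hWA, A.map_eq_zero_of_eq _ (i := p) (j := q) (by rw [hpq]) hne]
    rfl
  have h3 : ∀ σ : Equiv.Perm (Fin m × Bool), W σ = sn σ • W id := by
    intro σ
    rw [hWA, hWA]
    have h4 := A.map_perm (fun p => Pi.single p (1 : ℝ)) σ
    have e1 : ((fun p => Pi.single p (1 : ℝ)) ∘ σ : Fin m × Bool → Fin m × Bool → ℝ) =
        fun p => Pi.single (σ p) 1 := rfl
    rw [e1] at h4
    rw [h4]
    unfold sn
    rcases Int.units_eq_one_or (Equiv.Perm.sign σ) with h | h <;> simp [h]
  have h4 : LL m μ vac = pf μ • W id := by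
    rw [h1]
    have h5 : ∑ σ : Equiv.Perm (Fin m × Bool), (∏ b, μ b (σ (b, false)) (σ (b, true))) • W σ =
        ∑ H : Fin m × Bool → Fin m × Bool, (∏ b, μ b (H (b, false)) (H (b, true))) • W H := by
      refine Fintype.sum_of_injective (fun β : Equiv.Perm (Fin m × Bool) =>
        (β : Fin m × Bool → Fin m × Bool)) DFunLike.coe_injective _ _ ?_ ?_
      · intro H hH
        have : ¬ Function.Bijective H := fun h => hH ⟨Equiv.ofBijective H h, rfl⟩
        rw [h2 H this, smul_zero]
      · intro β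
        rfl
    rw [← h5, pf, Finset.sum_smul]
    refine Finset.sum_congr rfl fun σ _ => ?_
    rw [h3, smul_smul, mul_comm]
  have h5 : nn (W id) = 1 := by
    have : W id = cl (Ps m) := by
      rw [hW]
      rfl
    rw [this]
    exact nn_cl _ (Ps_nodup m)
  rw [h4, nn_smul, h5, mul_one]

/-- the Gauss-Bonnet-Chern sum of a signed sum of squares -/
theorem gm_op {K : Type*} [Fintype K] (s : K → ℝ) (ν : K → Fin m × Bool → Fin m × Bool → ℝ)
    (C : T4 m) (h : ∀ i j k l, C i j k l = ∑ a, s a * (ν a i j * ν a k l)) :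
    gm (fun _ : Fin m => C) = ((Op s ν) ^ m) nn vac := by
  classical
  rw [Op_pow]
  simp only [nn_LL, gm, h]
  have h2 : ∀ σ τ : Equiv.Perm (Fin m × Bool), sn σ * sn τ *
      ∏ b : Fin m, ∑ a, s a * (ν a (σ (b, false)) (σ (b, true)) * ν a (τ (b, false)) (τ (b, true))) =
      ∑ c : Fin m → K, (∏ b, s (c b)) *
        ((sn σ * ∏ b, ν (c b) (σ (b, false)) (σ (b, true))) *
        (sn τ * ∏ b, ν (c b) (τ (b, false)) (τ (b, true)))) := by
    intro σ τ
    rw [Fintype.prod_sum, Finset.mul_sum]
    refine Finset.sum_congr rfl fun c _ => ?_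
    rw [Finset.prod_mul_distrib, Finset.prod_mul_distrib]; ring
  simp only [h2]
  rw [Finset.sum_congr rfl fun σ _ => Finset.sum_comm, Finset.sum_comm]
  refine Finset.sum_congr rfl fun c _ => ?_
  rw [pf, sq, Finset.sum_mul_sum]
  simp only [← Finset.mul_sum]

end Pool.Agent.TH594.HP
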