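import Pool.Agent.TH594.HP.Final

/-!
# The equality family, the positive version and the integrated forms
-/

set_option autoImplicit false

namespace Pool.Agent.TH594.HP

open Finset
open Pool.Agent.W666.GB (AlgCurv gbc scal roundGB unitCurv CurvField)
open Pool.Agent.W669.HD (T4 gm cp negT addT unitT OpNonneg BiForm gbc_eq cp_unit unit_bi unit_curv
  add_curv)

section family

variable {m : ℕ} {K : Type*} [Fintype K]

theorem gm_zero_nonneg {ν : K → Fin m × Bool → Fin m × Bool → ℝ} (h : BiN ν) (ht : tt ν ≤ 0) :
    0 ≤ gm (fun _ : Fin m => (fun i j k l => 0 * unitCurv i j k l - ∑ a, ν a i j * ν a k l : T4 m))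
    := by
  rw [gm_F ν le_rfl, F]
  rcases Nat.eq_zero_or_pos m with hm | hm
  · subst hm
    simp [TT, w_zero]
  · obtain ⟨k, rfl⟩ := Nat.exists_eq_add_of_le' hm
    have hw : w ν (k + 1) = 0 := by
      refine le_antisymm ?_ (w_nonneg _ _)
      refine (w_succ_le h k).trans ?_
      have := w_nonneg ν k
      nlinarith
    refine le_of_eq (Finset.sum_eq_zero fun j hj => ?_).symm
    rw [zero_add]
    unfold TT
    rcases Nat.lt_or_ge j (k + 1) with h1 | h1
    · have : (2 * (0 : ℝ)) ^ (k + 1 - j) = 0 := by
        rw [mul_zero]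
        exact zero_pow (by omega)
      rw [this]; ring
    · have : j = k + 1 := by
        have := Finset.mem_range.mp hj
        omega
      rw [this, hw]; ring

theorem L_pair (s : ℝ) (p i : Fin m × Bool) (f : Fk (Fin m × Bool)) :
    L (fun k l => s * ((if k = p then 1 else 0) * (if l = i then 1 else 0) -
      (if l = p then 1 else 0) * (if k = i then 1 else 0))) f = (2 * s) • cr p (cr i f) := by
  rw [L_apply]
  have h1 : ∀ k l : Fin m × Bool, (s * ((if k = p then (1 : ℝ) else 0) * (if l = i then 1 else 0) -
      (if l = p then 1 else 0) * (if k = i then 1 else 0))) • cr k (cr l f) =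
      s • ((if k = p then (if l = i then cr k (cr l f) else 0) else 0) -
        (if k = i then (if l = p then cr k (cr l f) else 0) else 0)) := by
    intro k l
    rw [mul_smul]
    congr 1
    split_ifs <;> simp
  simp only [h1, ← Finset.smul_sum, Finset.sum_sub_distrib]
  have h2 : ∀ a b : Fin m × Bool, ∑ k : Fin m × Bool, ∑ l : Fin m × Bool,
      (if k = a then (if l = b then cr k (cr l f) else 0) else 0) = cr a (cr b f) := by
    intro a b
    rw [Finset.sum_eq_single a]
    · simp
    · intro k _ hk
      simp [hk]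
    · simp
  rw [h2, h2, cr_cr i p, sub_neg_eq_add, ← two_smul ℝ, smul_smul, mul_comm]

/-- the family of the equality case -/
noncomputable def np (s : ℝ) (p : Fin m × Bool) (i k l : Fin m × Bool) : ℝ :=
  s * ((if k = p then 1 else 0) * (if l = i then 1 else 0) -
      (if l = p then 1 else 0) * (if k = i then 1 else 0))

theorem w_np (s : ℝ) (p : Fin m × Bool) : w (np s p) 2 = 0 := by
  rw [w_two]
  refine Finset.sum_eq_zero fun a _ => Finset.sum_eq_zero fun b _ => ?_
  have h1 : ∀ (i : Fin m × Bool) (f : Fk (Fin m × Bool)),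
      L (np s p i) f = (2 * s) • cr p (cr i f) := fun i f => L_pair s p i f
  rw [h1, h1]
  have h2 : cr b ((2 * s) • cr p (cr a (vac : Fk (Fin m × Bool)))) =
      -((2 * s) • cr p (cr b (cr a vac))) := by
    rw [map_smul, cr_cr b p, smul_neg]
  rw [h2, map_neg, map_smul, cr_self, smul_zero, neg_zero, smul_zero]
  exact ip_zero_left _

theorem w_np' {s : ℝ} {p : Fin m × Bool} (h : BiN (np s p)) (j : ℕ) : w (np s p) (j + 2) = 0 := by
  induction j with
  | zero => exact w_np s p
  | succ j ih =>
    refine le_antisymm ?_ (w_nonneg _ _)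
    have := w_succ_le h (j + 2)
    rw [ih, mul_zero] at this
    exact this

theorem F_np {s : ℝ} {p : Fin m × Bool} (h : BiN (np s p)) (c : ℝ) (hm : 1 ≤ m) :
    F (TT (np s p) c) m 0 = TT (np s p) c 0 - TT (np s p) c 1 := by
  rcases Nat.lt_or_ge m 2 with h1 | h1
  · have hm1 : m = 1 := by omega
    subst hm1
    rw [F_succ, F_zero]
  · rw [F_split _ h1]
    have : F (TT (np s p) c) (m - 2) 2 = 0 := by
      unfold F
      refine Finset.sum_eq_zero fun j _ => ?_
      rw [TT, add_comm 2 j, w_np' h]; ring
    rw [this, add_zero]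

end family

section example_

variable {m : ℕ} {V : Type} [NormedAddCommGroup V] [InnerProductSpace ℝ V]

/-- the product of the metric with the square of the linear form `⟨u, ·⟩` -/
noncomputable def pT (u : V) (x y z w : V) : ℝ :=
  inner ℝ u x * inner ℝ u z * inner ℝ y w - inner ℝ u x * inner ℝ u w * inner ℝ y z -
    inner ℝ u y * inner ℝ u z * inner ℝ x w + inner ℝ u y * inner ℝ u w * inner ℝ x z

theorem pT_eq (u x y z w : V) :
    pT u x y z w = inner ℝ (inner ℝ u x • y - inner ℝ u y • x) (inner ℝ u z • w - inner ℝ u w • z) := by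
  unfold pT
  simp only [inner_sub_left, inner_sub_right, inner_smul_left, inner_smul_right, conj_trivial]
  ring

theorem pT_curv (u : V) : AlgCurv (pT u) where
  add x x' y z w := by simp only [pT, inner_add_left, inner_add_right]; ring
  smul t x y z w := by simp only [pT, inner_smul_left, inner_smul_right, conj_trivial]; ring
  anti x y z w := by simp only [pT]; ring
  pair x y z w := by
    simp only [pT]
    rw [real_inner_comm w y, real_inner_comm x w, real_inner_comm z y, real_inner_comm z x]
    ring
  bianchi x y z w := by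
    simp only [pT]
    rw [real_inner_comm y x, real_inner_comm z x, real_inner_comm z y]
    ring

theorem sm_curv {R : V → V → V → V → ℝ} (hR : AlgCurv R) (t : ℝ) :
    AlgCurv (fun x y z w => t * R x y z w) where
  add x x' y z w := by simp only [hR.add]; ring
  smul s x y z w := by simp only [hR.smul]; ring
  anti x y z w := by simp only [hR.anti x y z w]; ring
  pair x y z w := by simp only [hR.pair x y z w]
  bianchi x y z w := by
    have := hR.bianchi x y z w
    linear_combination t * this

/-- the tensors of the equality case -/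
noncomputable def Rt' (u : V) (c t : ℝ) : V → V → V → V → ℝ :=
  addT (fun x y z w => -c * unitT x y z w) (fun x y z w => (t * c) * pT u x y z w)

theorem Rt_curv (u : V) (c t : ℝ) : AlgCurv (Rt' u c t) :=
  add_curv (unit_curv (-c)) (sm_curv (pT_curv u) (t * c))

theorem Rt_add (u : V) (c t : ℝ) :
    (addT (Rt' u c t) fun x y z w => c * unitT x y z w) = fun x y z w => (t * c) * pT u x y z w := by
  funext x y z w
  simp only [Rt', addT]
  ring

theorem Rt_op (u : V) {c t : ℝ} (hc : 0 ≤ c) (ht : 0 ≤ t) :
    OpNonneg (addT (Rt' u c t) fun x y z w => c * unitT x y z w) := by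
  rw [Rt_add]
  intro n x y
  have h1 : ∑ a, ∑ b, (t * c) * pT u (x a) (y a) (x b) (y b) =
      (t * c) * inner ℝ (∑ a, (inner ℝ u (x a) • y a - inner ℝ u (y a) • x a))
        (∑ b, (inner ℝ u (x b) • y b - inner ℝ u (y b) • x b)) := by
    rw [sum_inner, Finset.mul_sum]
    refine Finset.sum_congr rfl fun a _ => ?_
    rw [inner_sum, Finset.mul_sum]
    refine Finset.sum_congr rfl fun b _ => ?_
    rw [pT_eq]
  rw [h1, real_inner_self_eq_norm_sq]
  positivity

theorem inner_basis (e : OrthonormalBasis (Fin m × Bool) ℝ V) (i j : Fin m × Bool) :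
    inner ℝ (e i) (e j) = if i = j then (1 : ℝ) else 0 := by
  rw [orthonormal_iff_ite.mp e.orthonormal i j]

theorem pT_basis (e : OrthonormalBasis (Fin m × Bool) ℝ V) {s c t : ℝ} (hs : s * s = t * c)
    (p i j k l : Fin m × Bool) :
    (t * c) * pT (e p) (e i) (e j) (e k) (e l) = ∑ a, np s p a i j * np s p a k l := by
  have h1 : ∀ a, np s p a i j * np s p a k l = (t * c) *
      ((if i = p then 1 else 0) * (if k = p then 1 else 0) *
        ((if j = a then 1 else 0) * (if l = a then 1 else 0)) -
      (if i = p then 1 else 0) * (if l = p then 1 else 0) *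
        ((if j = a then 1 else 0) * (if k = a then 1 else 0)) -
      (if j = p then 1 else 0) * (if k = p then 1 else 0) *
        ((if i = a then 1 else 0) * (if l = a then 1 else 0)) +
      (if j = p then 1 else 0) * (if l = p then 1 else 0) *
        ((if i = a then 1 else 0) * (if k = a then 1 else 0))) := by
    intro a
    unfold np
    rw [← hs]; ring
  have h2 : ∀ q r : Fin m × Bool, ∑ a : Fin m × Bool,
      (if q = a then (1 : ℝ) else 0) * (if r = a then 1 else 0) = if q = r then 1 else 0 := by
    intro q r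
    rw [Finset.sum_eq_single q]
    · rw [if_pos rfl, one_mul]
      simp only [eq_comm]
    · intro a _ ha
      rw [if_neg (Ne.symm ha), zero_mul]
    · simp
  simp only [h1, ← Finset.mul_sum, Finset.sum_add_distrib, Finset.sum_sub_distrib]
  simp only [h2]
  unfold pT
  simp only [inner_basis, eq_comm (a := p)]

/-- **The equality case**: for every `t ≥ 0`. -/
theorem equality (e : OrthonormalBasis (Fin m × Bool) ℝ V) (hm : 1 ≤ m) {c t : ℝ} (hc : 0 < c)
    (ht : 0 ≤ t) (p : Fin m × Bool) :
    scal e (Rt' (e p) c t) = -(c * ((2 * m - 1) * (2 * m - 2))) + (t - 1) * (2 * c * (2 * m - 1)) ∧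
      (-1) ^ m * gbc e (Rt' (e p) c t) = (1 - t) * roundGB m c := by
  set s := Real.sqrt (t * c) with hsd
  have hs : s * s = t * c := Real.mul_self_sqrt (by positivity)
  have hEE : ∀ i j k l, EE (np s p) i j k l = (t * c) * pT (e p) (e i) (e j) (e k) (e l) :=
    fun i j k l => (pT_basis e hs p i j k l).symm
  have hB : BiN (np s p) := by
    refine ⟨fun a i j => by unfold np; ring, fun i j k l => ?_⟩
    rw [hEE, hEE, hEE]
    have := (pT_curv (e p)).bianchi (e i) (e j) (e k) (e l)
    linear_combination (t * c) * this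
  have htt : tt (np s p) = 2 * (t * c) * (2 * m - 1) := by
    unfold tt
    simp only [hEE, ← Finset.mul_sum]
    have h1 : ∀ i j, pT (e p) (e i) (e j) (e i) (e j) =
        (if p = i then (1 : ℝ) else 0) + (if p = j then 1 else 0) -
          2 * ((if p = i then 1 else 0) * (if p = j then 1 else 0)) := by
      intro i j
      unfold pT
      simp only [inner_basis]
      by_cases h1 : p = i
      · subst h1
        by_cases h2 : p = j
        · subst h2; simp; norm_num
        · simp [h2, Ne.symm h2]
      · by_cases h2 : p = j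
        · subst h2; simp [h1]
        · simp [h1, h2]
    simp only [h1, Finset.sum_sub_distrib, Finset.sum_add_distrib, ← Finset.mul_sum,
      Finset.sum_const, Finset.card_univ, Fintype.card_prod, Fintype.card_fin, Fintype.card_bool,
      nsmul_eq_mul, Finset.sum_ite_eq, Finset.mem_univ, if_true, mul_one]
    push_cast
    ring
  have hscal : scal e (Rt' (e p) c t) =
      -(c * ((2 * m - 1) * (2 * m - 2))) + (t - 1) * (2 * c * (2 * m - 1)) := by
    have h1 : scal e (addT (Rt' (e p) c t) fun x y z w => c * unitT x y z w) = tt (np s p) := by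
      rw [Rt_add]
      unfold scal tt
      simp only [hEE]
    rw [scal_add, scal_unit, htt] at h1
    linear_combination h1
  refine ⟨hscal, ?_⟩
  have hg : (-1) ^ m * gbc e (Rt' (e p) c t) = 1 / ((8 * Real.pi) ^ m * m.factorial) *
      gm (fun _ : Fin m => (fun i j k l =>
          c * unitCurv i j k l - ∑ a, np s p a i j * np s p a k l : T4 m)) := by
    rw [gbc_eq]
    congr 2
    funext _ i j k l
    rw [← pT_basis e hs p i j k l, ← cp_unit e]
    simp only [cp, negT, addT, Rt']
    ring
  rw [hg, gm_F _ hc.le, F_np hB c hm]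
  have h2 := TT_one hB.anti c hm
  rw [htt] at h2
  have hmR : (1 : ℝ) ≤ m := by exact_mod_cast hm
  have h3 : TT (np s p) c 1 = t * TT (np s p) c 0 := by
    have h4 : (2 * c * (2 * (m : ℝ) - 1)) ≠ 0 := by
      have : 0 < 2 * (m : ℝ) - 1 := by linarith
      positivity
    have h5 : TT (np s p) c 1 * (2 * c * (2 * m - 1)) =
        (t * TT (np s p) c 0) * (2 * c * (2 * m - 1)) := by
      rw [h2]; ring
    exact mul_right_cancel₀ h4 h5
  have hround : roundGB m c = 1 / ((8 * Real.pi) ^ m * m.factorial) * TT (np s p) c 0 := by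
    have hπ := Real.pi_pos
    rw [TT_zero]
    unfold roundGB
    have : (8 * Real.pi) ^ m = 2 ^ m * (4 * Real.pi) ^ m := by
      rw [← mul_pow]; congr 1; ring
    rw [this, mul_pow 2 c m]
    field_simp
  rw [h3, hround]
  ring

/-- the sign, also for `c = 0` -/
theorem sign (e : OrthonormalBasis (Fin m × Bool) ℝ V) {R : V → V → V → V → ℝ}
    (hR : AlgCurv R) {c : ℝ} (hc : 0 ≤ c)
    (h : OpNonneg (addT R fun x y z w => c * unitT x y z w))
    (hs : scal e R ≤ -(c * ((2 * m - 1) * (2 * m - 2)))) : 0 ≤ (-1) ^ m * gbc e R := by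
  rcases eq_or_lt_of_le hc with h0 | h0
  · subst h0
    obtain ⟨n, ν, hν, hr, ht, hg⟩ := reduce e hR h
    rw [hg]
    have hπ := Real.pi_pos
    have hC : 0 < 1 / ((8 * Real.pi) ^ m * (m.factorial : ℝ)) := by positivity
    refine mul_nonneg hC.le (gm_zero_nonneg hν ?_)
    rw [ht]
    linarith
  · have h1 := point e hR h0 h hs
    have hm : 1 ≤ m := by
      by_contra hm0
      have hm1 : m = 0 := by omega
      subst hm1
      have h1 : scal e R = 0 := by
        unfold scal
        simp
      rw [h1] at hs
      norm_num at hs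
      linarith
    have hmR : (1 : ℝ) ≤ m := by exact_mod_cast hm
    have h2 : 0 ≤ roundGB m c * (-(scal e R) - c * ((2 * m - 1) * (2 * m - 2))) :=
      mul_nonneg (Pool.Agent.W669.HD.roundGB_nonneg hc) (by linarith)
    have h3 := h2.trans h1
    have h4 : 0 < 2 * c * (2 * (m : ℝ) - 1) := by
      have : 0 < 2 * (m : ℝ) - 1 := by linarith
      positivity
    exact nonneg_of_mul_nonneg_right h3 h4

/-- strictness -/
theorem sign_strict (e : OrthonormalBasis (Fin m × Bool) ℝ V) {R : V → V → V → V → ℝ}
    (hR : AlgCurv R) {c : ℝ} (hc : 0 < c)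
    (h : OpNonneg (addT R fun x y z w => c * unitT x y z w))
    (hs : scal e R < -(c * ((2 * m - 1) * (2 * m - 2)))) : 0 < (-1) ^ m * gbc e R := by
  have h1 := point e hR hc h hs.le
  have h2 : 0 < roundGB m c * (-(scal e R) - c * ((2 * m - 1) * (2 * m - 2))) :=
    mul_pos (Pool.Agent.W666.GB.roundGB_pos hc) (by linarith)
  have h3 := h2.trans_le h1
  have h0 := sign e hR hc.le h hs.le
  rcases eq_or_lt_of_le h0 with h4 | h4
  · rw [← h4, mul_zero] at h3
    exact absurd h3 (lt_irrefl _)
  · exact h4

theorem neg_curv {R : V → V → V → V → ℝ} (hR : AlgCurv R) : AlgCurv (negT R) where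
  add x x' y z w := by simp only [negT, hR.add]; ring
  smul s x y z w := by simp only [negT, hR.smul]; ring
  anti x y z w := by simp only [negT]; rw [hR.anti x y z w]
  pair x y z w := by simp only [negT]; rw [hR.pair x y z w]
  bianchi x y z w := by
    have := hR.bianchi x y z w
    simp only [negT]
    linarith

theorem scal_neg (e : OrthonormalBasis (Fin m × Bool) ℝ V) (R : V → V → V → V → ℝ) :
    scal e (negT R) = - scal e R := by
  unfold scal negT
  simp only [Finset.sum_neg_distrib]

theorem gbc_neg (e : OrthonormalBasis (Fin m × Bool) ℝ V) (R : V → V → V → V → ℝ) :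
    (-1) ^ m * gbc e (negT R) = gbc e R := by
  unfold gbc negT
  rw [mul_left_comm]
  congr 1
  rw [Finset.mul_sum]
  refine Finset.sum_congr rfl fun σ _ => ?_
  rw [Finset.mul_sum]
  refine Finset.sum_congr rfl fun τ _ => ?_
  rw [Finset.prod_neg, Finset.card_univ, Fintype.card_fin]
  have : ((-1 : ℝ) ^ m) * (-1) ^ m = 1 := by
    rw [← mul_pow]; norm_num
  linear_combination (((Equiv.Perm.sign σ : ℤ) : ℝ) * ((Equiv.Perm.sign τ : ℤ) : ℝ) *
        ∏ b : Fin m, R (e (σ (b, false))) (e (σ (b, true))) (e (τ (b, false))) (e (τ (b, true)))) *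
          this

end example_

end Pool.Agent.TH594.HP
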