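import Pool.Agent.TH594.HP.Exp

/-!
# Creation and annihilation of vectors, and a lower bound for `∑_a ‖z ∧ ν_a‖²`
-/

set_option autoImplicit false

namespace Pool.Agent.TH594.HP

open Finset

variable {J : Type*} [Fintype J] [DecidableEq J] {K : Type*} [Fintype K]

/-- annihilation of a vector -/
noncomputable def av (x : J → ℝ) (f : Fk J) : Fk J := ∑ i, x i • an i f

/-- scalar product -/
def dt (x y : J → ℝ) : ℝ := ∑ i, x i * y i

omit [DecidableEq J] in
theorem dt_comm (x y : J → ℝ) : dt x y = dt y x := by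
  unfold dt
  exact Finset.sum_congr rfl fun i _ => mul_comm _ _

omit [DecidableEq J] in
theorem dt_self_nonneg (x : J → ℝ) : 0 ≤ dt x x :=
  Finset.sum_nonneg fun _ _ => mul_self_nonneg _

theorem av_add (x : J → ℝ) (f g : Fk J) : av x (f + g) = av x f + av x g := by
  simp only [av, map_add, smul_add, Finset.sum_add_distrib]

theorem av_smul (x : J → ℝ) (t : ℝ) (f : Fk J) : av x (t • f) = t • av x f := by
  simp only [av, map_smul, Finset.smul_sum]
  refine Finset.sum_congr rfl fun i _ => ?_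
  rw [smul_comm]

theorem av_zero (x : J → ℝ) : av x (0 : Fk J) = 0 := by
  simp [av]

theorem av_sum {P : Type*} (s : Finset P) (x : J → ℝ) (f : P → Fk J) :
    av x (∑ a ∈ s, f a) = ∑ a ∈ s, av x (f a) := by
  classical
  induction s using Finset.induction_on with
  | empty => simp [av_zero]
  | insert a s ha ih => rw [Finset.sum_insert ha, Finset.sum_insert ha, av_add, ih]

theorem av_vac (x : J → ℝ) : av x (vac : Fk J) = 0 := by
  simp [av, an_vac]

theorem av_single (i : J) (f : Fk J) : av (Pi.single i 1) f = an i f := by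
  unfold av
  rw [Finset.sum_eq_single i]
  · rw [Pi.single_eq_same, one_smul]
  · intro j _ hj
    rw [Pi.single_eq_of_ne hj, zero_smul]
  · simp

theorem adjv (x : J → ℝ) (f g : Fk J) : ip (cv x f) g = ip f (av x g) := by
  rw [cv_apply, av, ip_sum_left, ip_sum_right]
  refine Finset.sum_congr rfl fun i _ => ?_
  rw [ip_smul_left, ip_smul_right, adj]

theorem adjv' (x : J → ℝ) (f g : Fk J) : ip f (cv x g) = ip (av x f) g := by
  rw [ip_comm, adjv, ip_comm]

/-- anticommutation -/
theorem av_cv (x y : J → ℝ) (f : Fk J) : av x (cv y f) = dt x y • f - cv y (av x f) := by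
  have h1 : av x (cv y f) = ∑ i, ∑ j, (x i * y j) • an i (cr j f) := by
    rw [cv_apply, av]
    refine Finset.sum_congr rfl fun i _ => ?_
    simp only [map_sum, map_smul, Finset.smul_sum, smul_smul]
  have h2 : cv y (av x f) = ∑ i, ∑ j, (x i * y j) • cr j (an i f) := by
    rw [cv_apply, av, Finset.sum_comm]
    refine Finset.sum_congr rfl fun j _ => ?_
    simp only [map_sum, map_smul, Finset.smul_sum, smul_smul]
    refine Finset.sum_congr rfl fun i _ => ?_
    rw [mul_comm]
  have h3 : dt x y • f = ∑ i, ∑ j, (x i * y j) • (if i = j then f else 0) := by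
    rw [dt, Finset.sum_smul]
    refine Finset.sum_congr rfl fun i _ => ?_
    rw [Finset.sum_eq_single i]
    · simp
    · intro j _ hj
      rw [if_neg (Ne.symm hj), smul_zero]
    · simp
  rw [h1, h2, h3, ← Finset.sum_sub_distrib]
  refine Finset.sum_congr rfl fun i _ => ?_
  rw [← Finset.sum_sub_distrib]
  refine Finset.sum_congr rfl fun j _ => ?_
  rw [an_cr, smul_sub]

theorem cv_cv (x y : J → ℝ) (f : Fk J) : cv x (cv y f) = - cv y (cv x f) := by
  have h1 : ∀ x y : J → ℝ, cv x (cv y f) = ∑ i, ∑ j, (x i * y j) • cr i (cr j f) := by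
    intro x y
    rw [cv_apply y, cv_apply]
    refine Finset.sum_congr rfl fun i _ => ?_
    simp only [map_sum, map_smul, Finset.smul_sum, smul_smul]
  rw [h1, h1, Finset.sum_comm, ← Finset.sum_neg_distrib]
  refine Finset.sum_congr rfl fun i _ => ?_
  rw [← Finset.sum_neg_distrib]
  refine Finset.sum_congr rfl fun j _ => ?_
  rw [cr_cr, smul_neg, mul_comm]

theorem cv_self (x : J → ℝ) (f : Fk J) : cv x (cv x f) = 0 := by
  have h := congrArg (fun T : Module.End ℝ (Fk J) => T f) (cv_sq x)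
  simpa [Module.End.mul_apply] using h

theorem nn_q (x : J → ℝ) (f : Fk J) : dt x x * nn f = nn (cv x f) + nn (av x f) := by
  have h1 : nn (cv x f) = dt x x * nn f - nn (av x f) := by
    unfold nn
    rw [adjv, av_cv, ip_sub_right, ip_smul_right, adjv']
  rw [h1]; ring

theorem nn_cv_le (x : J → ℝ) (f : Fk J) : nn (cv x f) ≤ dt x x * nn f := by
  rw [nn_q]
  linarith [nn_nonneg (av x f)]

theorem L_cv (μ : J → J → ℝ) (x : J → ℝ) (f : Fk J) : L μ (cv x f) = cv x (L μ f) := by
  have h1 : ∀ i j k : J, cr i (cr j (cr k f)) = cr k (cr i (cr j f)) := by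
    intro i j k
    rw [cr_cr j k, map_neg, cr_cr i k, neg_neg]
  have e1 : L μ (cv x f) = ∑ i, ∑ j, ∑ k, (x k * μ i j) • cr k (cr i (cr j f)) := by
    rw [L_apply, cv_apply]
    refine Finset.sum_congr rfl fun i _ => Finset.sum_congr rfl fun j _ => ?_
    simp only [map_sum, map_smul, Finset.smul_sum, smul_smul]
    refine Finset.sum_congr rfl fun k _ => ?_
    rw [h1, mul_comm]
  have e2 : cv x (L μ f) = ∑ k, ∑ i, ∑ j, (x k * μ i j) • cr k (cr i (cr j f)) := by
    rw [cv_apply, L_apply]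
    refine Finset.sum_congr rfl fun k _ => ?_
    simp only [map_sum, map_smul, Finset.smul_sum, smul_smul]
  rw [e1, e2]
  symm
  rw [Finset.sum_comm]
  refine Finset.sum_congr rfl fun i _ => ?_
  exact Finset.sum_comm

/-- contraction of a two-form with a vector -/
def ct (x : J → ℝ) (μ : J → J → ℝ) (k : J) : ℝ := ∑ l, x l * μ l k

theorem av_L {μ : J → J → ℝ} (h : ∀ i j, μ j i = - μ i j) (x : J → ℝ) (f : Fk J) :
    av x (L μ f) = L μ (av x f) + (2 : ℝ) • cv (ct x μ) f := by
  have h1 : ∀ i j k : J, an k (cr i (cr j f)) =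
      (if k = i then cr j f else 0) - (if k = j then cr i f else 0) + cr i (cr j (an k f)) := by
    intro i j k
    rw [an_cr, an_cr, map_sub]
    have : cr i (if k = j then f else 0) = if k = j then cr i f else 0 := by
      split_ifs
      · rfl
      · rw [map_zero]
    rw [this]
    abel
  have h2 : av x (L μ f) = ∑ i, ∑ j, μ i j • (x i • cr j f - x j • cr i f) + L μ (av x f) := by
    have e1 : av x (L μ f) = ∑ i, ∑ j, μ i j • av x (cr i (cr j f)) := by
      rw [L_apply, av_sum]
      refine Finset.sum_congr rfl fun i _ => ?_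
      rw [av_sum]
      refine Finset.sum_congr rfl fun j _ => ?_
      rw [av_smul]
    have e2 : ∀ i j : J, av x (cr i (cr j f)) =
        x i • cr j f - x j • cr i f + cr i (cr j (av x f)) := by
      intro i j
      unfold av
      simp only [h1, smul_add, smul_sub, Finset.sum_add_distrib, Finset.sum_sub_distrib, map_sum,
        map_smul, smul_ite, smul_zero, Finset.sum_ite_eq', Finset.mem_univ, if_true]
    rw [e1, L_apply, ← Finset.sum_add_distrib]
    refine Finset.sum_congr rfl fun i _ => ?_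
    rw [← Finset.sum_add_distrib]
    refine Finset.sum_congr rfl fun j _ => ?_
    rw [e2, smul_add]
  rw [h2, add_comm]
  congr 1
  have h3 : cv (ct x μ) f = ∑ i, ∑ j, μ i j • (x i • cr j f) := by
    rw [cv_apply, Finset.sum_comm]
    refine Finset.sum_congr rfl fun j _ => ?_
    rw [ct, Finset.sum_smul]
    refine Finset.sum_congr rfl fun i _ => ?_
    rw [smul_smul, mul_comm]
  have h4 : cv (ct x μ) f = - ∑ i, ∑ j, μ i j • (x j • cr i f) := by
    rw [h3, Finset.sum_comm, ← Finset.sum_neg_distrib]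
    refine Finset.sum_congr rfl fun j _ => ?_
    rw [← Finset.sum_neg_distrib]
    refine Finset.sum_congr rfl fun i _ => ?_
    rw [h, neg_smul]
  rw [two_smul]
  nth_rewrite 1 [h3]
  rw [h4, ← sub_eq_add_neg, ← Finset.sum_sub_distrib]
  refine Finset.sum_congr rfl fun i _ => ?_
  rw [← Finset.sum_sub_distrib]
  refine Finset.sum_congr rfl fun j _ => ?_
  rw [smul_sub]

/-- the Ricci form on forms as a sum of squares -/
theorem Rn_sq (ν : K → J → J → ℝ) (f : Fk J) :
    Rn ν f = ∑ a, ∑ i, nn (av (ν a i) f) := by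
  have h1 : ∀ a i, nn (av (ν a i) f) = ∑ j, ∑ l, (ν a i j * ν a i l) * ip (an j f) (an l f) := by
    intro a i
    unfold nn av
    rw [ip_sum_left]
    refine Finset.sum_congr rfl fun j _ => ?_
    rw [ip_sum_right]
    refine Finset.sum_congr rfl fun l _ => ?_
    rw [ip_smul_left, ip_smul_right]; ring
  simp only [h1]
  have e1 : ∀ G : K → J → J → J → ℝ, ∑ a, ∑ i, ∑ j, ∑ l, G a i j l =
      ∑ j, ∑ l, ∑ i, ∑ a, G a i j l := by
    intro G
    have s1 : ∑ a, ∑ i, ∑ j, ∑ l, G a i j l = ∑ a, ∑ j, ∑ l, ∑ i, G a i j l := by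
      refine Finset.sum_congr rfl fun a _ => ?_
      rw [Finset.sum_comm]
      refine Finset.sum_congr rfl fun j _ => ?_
      exact Finset.sum_comm
    rw [s1, Finset.sum_comm]
    refine Finset.sum_congr rfl fun j _ => ?_
    rw [Finset.sum_comm]
    refine Finset.sum_congr rfl fun l _ => ?_
    exact Finset.sum_comm
  rw [e1]
  unfold Rn rc EE
  refine Finset.sum_congr rfl fun j _ => Finset.sum_congr rfl fun l _ => ?_
  rw [Finset.sum_mul]
  refine Finset.sum_congr rfl fun i _ => ?_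
  rw [Finset.sum_mul]

/-- the quadratic Ricci form -/
def Yy (ν : K → J → J → ℝ) (z : J → ℝ) : ℝ := ∑ a, ∑ i, dt (ν a i) z ^ 2

omit [DecidableEq J] in
theorem Yy_nonneg (ν : K → J → J → ℝ) (z : J → ℝ) : 0 ≤ Yy ν z :=
  Finset.sum_nonneg fun _ _ => Finset.sum_nonneg fun _ _ => sq_nonneg _

theorem Rn_ge (ν : K → J → J → ℝ) (z : J → ℝ) (f : Fk J) (h : cv z f = 0) :
    Yy ν z * nn f ≤ dt z z * Rn ν f := by
  rw [Rn_sq, Yy, Finset.sum_mul, Finset.mul_sum]
  refine Finset.sum_le_sum fun a _ => ?_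
  rw [Finset.sum_mul, Finset.mul_sum]
  refine Finset.sum_le_sum fun i _ => ?_
  have h1 : cv z (av (ν a i) f) = dt (ν a i) z • f := by
    have h2 := av_cv (ν a i) z f
    rw [h, av_zero] at h2
    exact (sub_eq_zero.mp h2.symm).symm
  have h3 := nn_cv_le z (av (ν a i) f)
  rw [h1] at h3
  have h4 : nn (dt (ν a i) z • f) = dt (ν a i) z ^ 2 * nn f := by
    unfold nn
    rw [ip_smul_left, ip_smul_right]; ring
  rwa [h4] at h3

theorem sum_dt_ct {ν : K → J → J → ℝ} (h : ∀ a i j, ν a j i = - ν a i j) (z : J → ℝ) :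
    ∑ a, dt (ct z (ν a)) (ct z (ν a)) = Yy ν z := by
  unfold Yy
  refine Finset.sum_congr rfl fun a _ => ?_
  unfold dt ct
  refine Finset.sum_congr rfl fun k _ => ?_
  have : ∑ l, z l * ν a l k = - ∑ l, ν a k l * z l := by
    rw [← Finset.sum_neg_distrib]
    refine Finset.sum_congr rfl fun l _ => ?_
    rw [h a k l]; ring
  rw [this]; ring

/-- the value on vectors -/
theorem Ls_vec {ν : K → J → J → ℝ} (h : ∀ a i j, ν a j i = - ν a i j) (z : J → ℝ) :
    4 * Yy ν z ≤ 2 * tt ν * dt z z := by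
  have h1 := Ls_eq h (cv z vac)
  have h2 : nn (cv z vac : Fk J) = dt z z := by
    have := nn_q z (vac : Fk J)
    rw [av_vac, nn_vac] at this
    have h0 : nn (0 : Fk J) = 0 := ip_zero_left _
    rw [h0] at this
    linarith
  have h3 : An ν (cv z vac) = 0 := by
    unfold An
    refine Finset.sum_eq_zero fun a _ => ?_
    have : ∑ i, ∑ j, ν a i j • an i (an j (cv z (vac : Fk J))) = 0 := by
      refine Finset.sum_eq_zero fun i _ => Finset.sum_eq_zero fun j _ => ?_
      rw [← av_single j, av_cv, av_vac, map_zero, sub_zero, map_smul, an_vac, smul_zero, smul_zero]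
    rw [this]
    exact ip_zero_left _
  have h4 : Yy ν z ≤ Rn ν (cv z vac) := by
    rcases eq_or_lt_of_le (dt_self_nonneg z) with h0 | h0
    · have hz : z = 0 := by
        funext i
        have := (Finset.sum_eq_zero_iff_of_nonneg fun i _ => mul_self_nonneg (z i)).mp h0.symm i
          (Finset.mem_univ i)
        simpa using this
      subst hz
      have : Yy ν (0 : J → ℝ) = 0 := by
        unfold Yy dt
        simp
      rw [this, Rn_sq]
      exact Finset.sum_nonneg fun _ _ => Finset.sum_nonneg fun _ _ => nn_nonneg _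
    · have := Rn_ge ν z (cv z vac) (cv_self z vac)
      rw [h2] at this
      nlinarith
  have h5 := Ls_nonneg ν (cv z vac)
  rw [h2, h3] at h1
  linarith

/-- **the lower bound** -/
theorem lemM {ν : K → J → J → ℝ} (h : BiN ν) (z : J → ℝ) :
    dt z z * w ν 2 ≤ 9 * tt ν * ∑ a, nn (cv z (L (ν a) vac)) := by
  have hS : 0 ≤ ∑ a, nn (cv z (L (ν a) (vac : Fk J))) :=
    Finset.sum_nonneg fun _ _ => nn_nonneg _
  have hT := tt_nonneg ν
  rcases eq_or_lt_of_le (dt_self_nonneg z) with h0 | hq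
  · rw [← h0, zero_mul]
    positivity
  have hw : w ν 2 = ∑ a, ∑ b, nn (L (ν b) (L (ν a) (vac : Fk J))) := by
    unfold w
    rw [pow_two, Module.End.mul_apply, O1_apply]
    exact Finset.sum_congr rfl fun a _ => O1_apply _ _ _
  set q := dt z z with hqd
  set ζ : K → Fk J := fun a => cv z (L (ν a) vac) with hζ
  set Y := Yy ν z with hY
  have hY0 : 0 ≤ Y := Yy_nonneg ν z
  -- the two parts
  have h1 : q * w ν 2 = ∑ a, ∑ b, nn (cv z (L (ν b) (L (ν a) (vac : Fk J)))) +
      ∑ a, ∑ b, nn (av z (L (ν b) (L (ν a) (vac : Fk J)))) := by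
    rw [hw, Finset.mul_sum, ← Finset.sum_add_distrib]
    refine Finset.sum_congr rfl fun a _ => ?_
    rw [Finset.mul_sum, ← Finset.sum_add_distrib]
    exact Finset.sum_congr rfl fun b _ => nn_q z _
  have h2 : q * ∑ a, ∑ b, nn (cv z (L (ν b) (L (ν a) (vac : Fk J)))) ≤
      (2 * tt ν * q - 2 * Y) * ∑ a, nn (ζ a) := by
    rw [Finset.mul_sum, Finset.mul_sum]
    refine Finset.sum_le_sum fun a _ => ?_
    have e1 : ∑ b, nn (cv z (L (ν b) (L (ν a) (vac : Fk J)))) = Ls ν (ζ a) := by
      unfold Ls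
      refine Finset.sum_congr rfl fun b _ => ?_
      rw [hζ, L_cv]
    rw [e1]
    have e2 := Ls_le h (ζ a)
    have e3 := Rn_ge ν z (ζ a) (cv_self z _)
    nlinarith
  -- second part
  have hf0 : ∀ b, (L (ν b) (vac : Fk J)) = q⁻¹ • av z (ζ b) + (2 * q⁻¹) • cv z (cv (ct z (ν b)) vac) := by
    intro b
    have e1 := av_cv z z (L (ν b) (vac : Fk J))
    have e2 := av_L (h.anti b) z (vac : Fk J)
    rw [av_vac, map_zero, zero_add] at e2
    rw [e2, map_smul] at e1
    have e3 : q • L (ν b) (vac : Fk J) = av z (ζ b) + (2 : ℝ) • cv z (cv (ct z (ν b)) vac) := by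
      show q • _ = av z (cv z (L (ν b) vac)) + _
      rw [e1]
      abel
    have e4 : L (ν b) (vac : Fk J) = q⁻¹ • (q • L (ν b) (vac : Fk J)) := by
      rw [smul_smul, inv_mul_cancel₀ hq.ne', one_smul]
    rw [e4, e3, smul_add, smul_smul, mul_comm q⁻¹ 2]
  have h3 : ∀ a b, av z (L (ν b) (L (ν a) (vac : Fk J))) =
      (2 * q⁻¹) • (cv (ct z (ν a)) (av z (ζ b)) + cv (ct z (ν b)) (av z (ζ a))) := by
    intro a b
    have e1 := av_L (h.anti b) z (L (ν a) (vac : Fk J))
    have e2 := av_L (h.anti a) z (vac : Fk J)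
    rw [av_vac, map_zero, zero_add] at e2
    rw [e2, map_smul, L_cv] at e1
    rw [e1, hf0 a, hf0 b]
    simp only [map_add, map_smul]
    have e3 : cv (ct z (ν a)) (cv z (cv (ct z (ν b)) (vac : Fk J))) =
        - cv (ct z (ν b)) (cv z (cv (ct z (ν a)) vac)) := by
      rw [cv_cv _ z, cv_cv (ct z (ν a)), cv_cv (ct z (ν b)) z]
      simp
    rw [e3]
    simp only [smul_add, smul_smul, smul_neg]
    abel
  have hnav : ∀ b, nn (av z (ζ b)) = q * nn (ζ b) := by
    intro b
    have := nn_q z (ζ b)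
    rw [cv_self] at this
    have h0 : nn (0 : Fk J) = 0 := ip_zero_left _
    rw [h0] at this
    linarith
  have h4 : ∀ a b, q * nn (av z (L (ν b) (L (ν a) (vac : Fk J)))) ≤
      8 * (dt (ct z (ν a)) (ct z (ν a)) * nn (ζ b) + dt (ct z (ν b)) (ct z (ν b)) * nn (ζ a)) := by
    intro a b
    rw [h3]
    have e0 : ∀ (t : ℝ) (f : Fk J), nn (t • f) = t ^ 2 * nn f := by
      intro t f
      unfold nn
      rw [ip_smul_left, ip_smul_right]; ring
    have e1 : ∀ f g : Fk J, nn (f + g) ≤ 2 * nn f + 2 * nn g := by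
      intro f g
      have := nn_nonneg (f - g)
      have e2 : nn (f - g) = nn f - 2 * ip f g + nn g := by
        unfold nn
        rw [ip_sub_left, ip_sub_right, ip_sub_right, ip_comm g f]; ring
      have e3 : nn (f + g) = nn f + 2 * ip f g + nn g := by
        unfold nn
        rw [ip_add_left, ip_add_right, ip_add_right, ip_comm g f]; ring
      linarith
    rw [e0]
    have e2 := e1 (cv (ct z (ν a)) (av z (ζ b))) (cv (ct z (ν b)) (av z (ζ a)))
    have e3 := nn_cv_le (ct z (ν a)) (av z (ζ b))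
    have e4 := nn_cv_le (ct z (ν b)) (av z (ζ a))
    rw [hnav] at e3 e4
    have e5 : q * ((2 * q⁻¹) ^ 2 * nn (cv (ct z (ν a)) (av z (ζ b)) + cv (ct z (ν b)) (av z (ζ a)))) =
        4 * q⁻¹ * nn (cv (ct z (ν a)) (av z (ζ b)) + cv (ct z (ν b)) (av z (ζ a))) := by
      field_simp
      ring
    rw [e5]
    have e6 : nn (cv (ct z (ν a)) (av z (ζ b)) + cv (ct z (ν b)) (av z (ζ a))) ≤
        q * (2 * (dt (ct z (ν a)) (ct z (ν a)) * nn (ζ b) +
          dt (ct z (ν b)) (ct z (ν b)) * nn (ζ a))) := by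
      refine e2.trans ?_
      nlinarith
    calc 4 * q⁻¹ * nn (cv (ct z (ν a)) (av z (ζ b)) + cv (ct z (ν b)) (av z (ζ a)))
        ≤ 4 * q⁻¹ * (q * (2 * (dt (ct z (ν a)) (ct z (ν a)) * nn (ζ b) +
          dt (ct z (ν b)) (ct z (ν b)) * nn (ζ a)))) :=
          mul_le_mul_of_nonneg_left e6 (by positivity)
      _ = _ := by field_simp; ring
  have h5 : q * ∑ a, ∑ b, nn (av z (L (ν b) (L (ν a) (vac : Fk J)))) ≤ 16 * Y * ∑ a, nn (ζ a) := by
    have e1 : q * ∑ a, ∑ b, nn (av z (L (ν b) (L (ν a) (vac : Fk J)))) ≤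
        ∑ a, ∑ b, 8 * (dt (ct z (ν a)) (ct z (ν a)) * nn (ζ b) +
          dt (ct z (ν b)) (ct z (ν b)) * nn (ζ a)) := by
      rw [Finset.mul_sum]
      refine Finset.sum_le_sum fun a _ => ?_
      rw [Finset.mul_sum]
      exact Finset.sum_le_sum fun b _ => h4 a b
    refine e1.trans (le_of_eq ?_)
    simp only [← Finset.mul_sum, Finset.sum_add_distrib, ← Finset.sum_mul]
    rw [sum_dt_ct h.anti]
    ring
  have h6 := Ls_vec h.anti z
  have h7 : q * (q * w ν 2) ≤ (2 * tt ν * q + 14 * Y) * ∑ a, nn (ζ a) := by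
    rw [h1, mul_add]
    linarith
  have h8 : (2 * tt ν * q + 14 * Y) * ∑ a, nn (ζ a) ≤ q * (9 * tt ν * ∑ a, nn (ζ a)) := by
    have : 2 * tt ν * q + 14 * Y ≤ 9 * tt ν * q := by linarith
    nlinarith
  exact le_of_mul_le_mul_left (h7.trans h8) hq

end Pool.Agent.TH594.HP
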